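import Pool.Agent.Lib.MP_305fdd_al.To.Eu.Euler
import Mathlib.Algebra.Group.MinimalAxioms

/-!
# MP_305fdd_al, torsion room: Hopf's formula, the degree of a homomorphism of surface groups
-/

set_option autoImplicit false

namespace Pool.Agent.ToEu

open Pool.Agent.Su

/-- an element of the normal closure of `r` becomes a fixed power of `r` in every quotient in which
`r` is central -/
theorem normal_pow {F : Type} [Group F] (r : F) {w : F}
    (hw : w ∈ Subgroup.normalClosure ({r} : Set F)) :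
    ∃ k : ℤ, ∀ (H : Type) [Group H] (θ : F →* H), (∀ x : F, Commute (θ r) (θ x)) →
      θ w = θ r ^ k := by
  rw [Subgroup.normalClosure] at hw
  induction hw using Subgroup.closure_induction with
  | mem x hx =>
    rw [Group.mem_conjugatesOfSet_iff] at hx
    obtain ⟨a, ha, hax⟩ := hx
    rw [Set.mem_singleton_iff] at ha
    subst ha
    rw [isConj_iff] at hax
    obtain ⟨c, rfl⟩ := hax
    refine ⟨1, fun H _ θ hθ => ?_⟩
    rw [map_mul, map_mul, map_inv, ← (hθ c).eq, mul_inv_cancel_right, zpow_one]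
  | one => exact ⟨0, fun H _ θ hθ => by rw [map_one, zpow_zero]⟩
  | mul x y _ _ hx hy =>
    obtain ⟨k, hk⟩ := hx
    obtain ⟨l, hl⟩ := hy
    exact ⟨k + l, fun H _ θ hθ => by rw [map_mul, hk H θ hθ, hl H θ hθ, zpow_add]⟩
  | inv x _ hx =>
    obtain ⟨k, hk⟩ := hx
    exact ⟨-k, fun H _ θ hθ => by rw [map_inv, hk H θ hθ, zpow_neg]⟩

/-! ### lifts to homomorphisms of the free group -/

theorem exists_hom {g : ℕ} (ρ : SurfaceGroup g →* SL2) :
    ∃ θ : FreeGroup (Fin g ⊕ Fin g) →* Tld, ∀ w, (θ w).1.1 = ρ (surfMk g w) := by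
  choose F hF using exists_lift
  refine ⟨FreeGroup.lift fun c => ⟨(ρ (surfMk g (FreeGroup.of c)), F _), hF _⟩, fun w => ?_⟩
  have : ((MonoidHom.fst SL2 CircleDeg1Liftˣ).comp Tld.subtype).comp
      (FreeGroup.lift fun c => ⟨(ρ (surfMk g (FreeGroup.of c)), F _), hF _⟩)
      = ρ.comp (surfMk g) := by
    ext c
    simp
  exact DFunLike.congr_fun this w

theorem eu_hom {g : ℕ} (ρ : SurfaceGroup g →* SL2) (θ : FreeGroup (Fin g ⊕ Fin g) →* Tld)
    (h : ∀ w, (θ w).1.1 = ρ (surfMk g w)) : (θ (surfRel g)).1 = (1, zt (eu ρ)) := by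
  have h1 : (θ (surfRel g)).1.1 = 1 := by
    rw [h, show surfMk g (surfRel g) = 1 from PresentedGroup.one_of_mem (Set.mem_singleton _),
      map_one]
  have h2 : (θ (surfRel g)).1.2 = zt (eu ρ) := by
    have e : (θ (surfRel g)).1.2 = cw (fun i => (θ (genA g i)).1.2) (fun i => (θ (genB g i)).1.2) := by
      have := map_cw ((MonoidHom.snd SL2 CircleDeg1Liftˣ).comp (Tld.subtype.comp θ)) (genA g) (genB g)
      exact this
    rw [e]
    refine eu_spec ρ (fun i => ?_) (fun i => ?_)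
    · have h3 := (θ (genA g i)).2
      have h4 := h (genA g i)
      have e : ρ (sa g i) = (θ (genA g i)).1.1 := h4.symm
      rw [e]
      exact h3
    · have h3 := (θ (genB g i)).2
      have h4 := h (genB g i)
      have e : ρ (sb g i) = (θ (genB g i)).1.1 := h4.symm
      rw [e]
      exact h3
  exact Prod.ext h1 h2

theorem eu_hom_central {g : ℕ} (ρ : SurfaceGroup g →* SL2) (θ : FreeGroup (Fin g ⊕ Fin g) →* Tld)
    (h : ∀ w, (θ w).1.1 = ρ (surfMk g w)) (x : FreeGroup (Fin g ⊕ Fin g)) :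
    Commute (θ (surfRel g)) (θ x) := by
  apply Subtype.ext
  show (θ (surfRel g)).1 * (θ x).1 = (θ x).1 * (θ (surfRel g)).1
  rw [eu_hom ρ θ h]
  refine Prod.ext ?_ ?_
  · show 1 * (θ x).1.1 = (θ x).1.1 * 1
    rw [one_mul, mul_one]
  · exact (zt_comm _ _).eq

/-! ### the cup product -/

/-- the cup product of two classes in `H^1` of the surface group, evaluated on the fundamental
class -/
def cup {g : ℕ} {R : Type} [CommRing R] (u v : SurfaceGroup g →* Multiplicative R) : R :=
  ∑ i : Fin g, ((u (sa g i)).toAdd * (v (sb g i)).toAdd - (u (sb g i)).toAdd * (v (sa g i)).toAdd)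

/-- the Heisenberg group over a commutative ring -/
@[ext] structure Hei (R : Type) where
  x : R
  y : R
  z : R

namespace Hei

variable {R : Type} [CommRing R]

instance : Mul (Hei R) := ⟨fun a b => ⟨a.x + b.x, a.y + b.y, a.z + b.z + a.x * b.y⟩⟩
instance : One (Hei R) := ⟨⟨0, 0, 0⟩⟩
instance : Inv (Hei R) := ⟨fun a => ⟨-a.x, -a.y, -a.z + a.x * a.y⟩⟩

theorem mul_x (a b : Hei R) : (a * b).x = a.x + b.x := rfl
theorem mul_y (a b : Hei R) : (a * b).y = a.y + b.y := rfl
theorem mul_z (a b : Hei R) : (a * b).z = a.z + b.z + a.x * b.y := rfl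
theorem one_x : (1 : Hei R).x = 0 := rfl
theorem one_y : (1 : Hei R).y = 0 := rfl
theorem one_z : (1 : Hei R).z = 0 := rfl
theorem inv_x (a : Hei R) : (a⁻¹).x = -a.x := rfl
theorem inv_y (a : Hei R) : (a⁻¹).y = -a.y := rfl
theorem inv_z (a : Hei R) : (a⁻¹).z = -a.z + a.x * a.y := rfl

instance : Group (Hei R) := Group.ofLeftAxioms
  (by intro a b c; ext <;> simp only [mul_x, mul_y, mul_z] <;> ring)
  (by intro a; ext <;> simp only [mul_x, mul_y, mul_z, one_x, one_y, one_z] <;> ring)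
  (by intro a; ext <;> simp only [mul_x, mul_y, mul_z, one_x, one_y, one_z, inv_x, inv_y, inv_z] <;>
    ring)

/-- the two projections -/
def px : Hei R →* Multiplicative R where
  toFun a := Multiplicative.ofAdd a.x
  map_one' := rfl
  map_mul' _ _ := rfl

def py : Hei R →* Multiplicative R where
  toFun a := Multiplicative.ofAdd a.y
  map_one' := rfl
  map_mul' _ _ := rfl

/-- the centre -/
def cen : Multiplicative R →* Hei R where
  toFun t := ⟨0, 0, t.toAdd⟩
  map_one' := rfl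
  map_mul' s t := by
    ext
    · simp [mul_x]
    · simp [mul_y]
    · simp [mul_z]

theorem cen_comm (t : Multiplicative R) (a : Hei R) : Commute (cen t) a := by
  show cen t * a = a * cen t
  ext
  · simp [mul_x, cen]
  · simp [mul_y, cen]
  · simp [mul_z, cen, add_comm]

theorem comm_eq (a b : Hei R) :
    a * b * a⁻¹ * b⁻¹ = cen (Multiplicative.ofAdd (a.x * b.y - b.x * a.y)) := by
  ext
  · simp only [mul_x, inv_x, cen, MonoidHom.coe_mk, OneHom.coe_mk]; ring
  · simp only [mul_y, inv_y, cen, MonoidHom.coe_mk, OneHom.coe_mk]; ring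
  · simp only [mul_x, mul_z, inv_x, inv_y, inv_z, cen, MonoidHom.coe_mk, OneHom.coe_mk,
      toAdd_ofAdd]
    ring

end Hei

theorem exists_hom_hei {g : ℕ} {R : Type} [CommRing R] (u v : SurfaceGroup g →* Multiplicative R) :
    ∃ θ : FreeGroup (Fin g ⊕ Fin g) →* Hei R,
      (∀ w, Hei.px (θ w) = u (surfMk g w)) ∧ (∀ w, Hei.py (θ w) = v (surfMk g w)) := by
  refine ⟨FreeGroup.lift fun c => ⟨(u (surfMk g (FreeGroup.of c))).toAdd,
    (v (surfMk g (FreeGroup.of c))).toAdd, 0⟩, fun w => ?_, fun w => ?_⟩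
  · have : Hei.px.comp (FreeGroup.lift fun c => (⟨(u (surfMk g (FreeGroup.of c))).toAdd,
      (v (surfMk g (FreeGroup.of c))).toAdd, 0⟩ : Hei R)) = u.comp (surfMk g) := by
      ext c
      simp [Hei.px]
    exact DFunLike.congr_fun this w
  · have : Hei.py.comp (FreeGroup.lift fun c => (⟨(u (surfMk g (FreeGroup.of c))).toAdd,
      (v (surfMk g (FreeGroup.of c))).toAdd, 0⟩ : Hei R)) = v.comp (surfMk g) := by
      ext c
      simp [Hei.py]
    exact DFunLike.congr_fun this w

theorem cup_hom {g : ℕ} {R : Type} [CommRing R] (u v : SurfaceGroup g →* Multiplicative R)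
    (θ : FreeGroup (Fin g ⊕ Fin g) →* Hei R) (hu : ∀ w, Hei.px (θ w) = u (surfMk g w))
    (hv : ∀ w, Hei.py (θ w) = v (surfMk g w)) :
    θ (surfRel g) = Hei.cen (Multiplicative.ofAdd (cup u v)) := by
  have e : θ (surfRel g) = cw (fun i => θ (genA g i)) (fun i => θ (genB g i)) :=
    map_cw θ (genA g) (genB g)
  rw [e, cw]
  have h1 : (fun i : Fin g => θ (genA g i) * θ (genB g i) * (θ (genA g i))⁻¹ * (θ (genB g i))⁻¹)
      = fun i => Hei.cen (Multiplicative.ofAdd
        ((u (sa g i)).toAdd * (v (sb g i)).toAdd - (u (sb g i)).toAdd * (v (sa g i)).toAdd)) := by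
    funext i
    rw [Hei.comm_eq]
    have a1 : (θ (genA g i)).x = (u (sa g i)).toAdd := congrArg Multiplicative.toAdd (hu (genA g i))
    have a2 : (θ (genA g i)).y = (v (sa g i)).toAdd := congrArg Multiplicative.toAdd (hv (genA g i))
    have a3 : (θ (genB g i)).x = (u (sb g i)).toAdd := congrArg Multiplicative.toAdd (hu (genB g i))
    have a4 : (θ (genB g i)).y = (v (sb g i)).toAdd := congrArg Multiplicative.toAdd (hv (genB g i))
    rw [a1, a2, a3, a4]
  have h2 : (List.ofFn fun i : Fin g => Hei.cen (Multiplicative.ofAdd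
        ((u (sa g i)).toAdd * (v (sb g i)).toAdd - (u (sb g i)).toAdd * (v (sa g i)).toAdd)))
      = (List.ofFn fun i : Fin g => (Multiplicative.ofAdd
        ((u (sa g i)).toAdd * (v (sb g i)).toAdd
          - (u (sb g i)).toAdd * (v (sa g i)).toAdd))).map Hei.cen := by
    rw [List.map_ofFn]; rfl
  rw [h1, h2, ← map_list_prod, List.prod_ofFn, ← ofAdd_sum]
  rfl

/-! ### the degree -/

/-- **Hopf's formula**: a homomorphism between surface groups has a degree -/
theorem exists_deg {g h : ℕ} (φ : SurfaceGroup g →* SurfaceGroup h) :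
    ∃ k : ℤ, (∀ ρ : SurfaceGroup h →* SL2, eu (ρ.comp φ) = k * eu ρ) ∧
      (∀ (R : Type) [CommRing R] (u v : SurfaceGroup h →* Multiplicative R),
        cup (u.comp φ) (v.comp φ) = (k : R) * cup u v) := by
  choose s hs using surfMk_surjective h
  set ψ : FreeGroup (Fin g ⊕ Fin g) →* FreeGroup (Fin h ⊕ Fin h) :=
    FreeGroup.lift fun c => s (φ (surfMk g (FreeGroup.of c))) with hψ
  have h1 : ∀ w, surfMk h (ψ w) = φ (surfMk g w) := by
    intro w
    have : (surfMk h).comp ψ = φ.comp (surfMk g) := by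
      ext c
      simp [hψ, hs]
    exact DFunLike.congr_fun this w
  have h2 : ψ (surfRel g) ∈ Subgroup.normalClosure ({surfRel h} : Set _) := by
    have : surfMk h (ψ (surfRel g)) = 1 := by
      rw [h1, show surfMk g (surfRel g) = 1 from PresentedGroup.one_of_mem (Set.mem_singleton _),
        map_one]
    exact PresentedGroup.mk_eq_one_iff.1 this
  obtain ⟨k, hk⟩ := normal_pow (surfRel h) h2
  refine ⟨k, fun ρ => ?_, fun R _ u v => ?_⟩
  · obtain ⟨θ, hθ⟩ := exists_hom ρ
    have e1 := hk Tld θ (eu_hom_central ρ θ hθ)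
    have e2 := eu_hom (ρ.comp φ) (θ.comp ψ) (fun w => by
      rw [MonoidHom.comp_apply, hθ, h1]; rfl)
    have e3 := eu_hom ρ θ hθ
    have e4 : (θ (ψ (surfRel g))).1.2 = zt (eu ρ * k) := by
      rw [e1]
      show ((θ (surfRel h)).1 ^ k).2 = _
      rw [e3, Prod.pow_snd, zt_zpow]
    have e5 : (θ (ψ (surfRel g))).1.2 = zt (eu (ρ.comp φ)) := by
      have := congrArg Prod.snd e2
      exact this
    rw [mul_comm]
    exact zt_injective (e5.symm.trans e4)
  · obtain ⟨θ, hu, hv⟩ := exists_hom_hei u v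
    have e3 := cup_hom u v θ hu hv
    have e1 := hk (Hei R) θ (fun x => by rw [e3]; exact Hei.cen_comm _ _)
    have e2 := cup_hom (u.comp φ) (v.comp φ) (θ.comp ψ)
      (fun w => by rw [MonoidHom.comp_apply, hu, h1]; rfl)
      (fun w => by rw [MonoidHom.comp_apply, hv, h1]; rfl)
    rw [MonoidHom.comp_apply, e1, e3, ← map_zpow] at e2
    have e4 := congrArg Hei.z e2
    have e5 : ((Multiplicative.ofAdd (cup u v)) ^ k).toAdd = cup (u.comp φ) (v.comp φ) := e4
    rw [← e5, toAdd_zpow, toAdd_ofAdd, zsmul_eq_mul]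

/-- a homomorphism to `ℤ` which is the coordinate `a_i` -/
theorem exists_coord {g : ℕ} (hg : 1 ≤ g) :
    ∃ u v : SurfaceGroup g →* Multiplicative ℤ, cup u v = 1 := by
  have hl : ∀ a b : Fin g → Multiplicative ℤ,
      (List.ofFn fun i : Fin g => a i * b i * (a i)⁻¹ * (b i)⁻¹).prod = 1 := by
    intro a b
    apply List.prod_eq_one
    intro x hx
    rw [List.mem_ofFn] at hx
    obtain ⟨i, rfl⟩ := hx
    rw [mul_comm (a i) (b i), mul_inv_cancel_right, mul_inv_cancel]
  set o : Fin g := ⟨0, hg⟩ with ho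
  refine ⟨surfLift (fun i => if i = o then Multiplicative.ofAdd 1 else 1) (fun _ => 1) (hl _ _),
    surfLift (fun _ => 1) (fun i => if i = o then Multiplicative.ofAdd 1 else 1) (hl _ _), ?_⟩
  rw [cup, Finset.sum_eq_single o]
  · rw [surfLift_sa, surfLift_sb, surfLift_sa, surfLift_sb, if_pos rfl]
    simp
  · intro i _ hi
    rw [surfLift_sa, surfLift_sb, surfLift_sa, surfLift_sb, if_neg hi]
    simp
  · intro h
    exact absurd (Finset.mem_univ o) h

/-- **the degree of an automorphism** is `± 1` -/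
theorem degree {g : ℕ} (hg : 1 ≤ g) (φ : SurfaceGroup g ≃* SurfaceGroup g) :
    ∃ k : ℤˣ, (∀ ρ : SurfaceGroup g →* SL2, eu (ρ.comp φ.toMonoidHom) = k * eu ρ) ∧
      (∀ (R : Type) [CommRing R] (u v : SurfaceGroup g →* Multiplicative R),
        cup (u.comp φ.toMonoidHom) (v.comp φ.toMonoidHom) = ((k : ℤ) : R) * cup u v) := by
  obtain ⟨k, hk, hk'⟩ := exists_deg φ.toMonoidHom
  obtain ⟨l, -, hl'⟩ := exists_deg φ.symm.toMonoidHom
  obtain ⟨u, v, huv⟩ := exists_coord hg
  have h1 := hk' ℤ (u.comp φ.symm.toMonoidHom) (v.comp φ.symm.toMonoidHom)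
  rw [hl' ℤ u v, huv, mul_one] at h1
  have e : ∀ w : SurfaceGroup g →* Multiplicative ℤ,
      (w.comp φ.symm.toMonoidHom).comp φ.toMonoidHom = w := by
    intro w
    ext x
    simp
  rw [e, e, huv] at h1
  have h2 : k * l = 1 := by simpa using h1.symm
  refine ⟨⟨k, l, h2, by rw [mul_comm]; exact h2⟩, hk, hk'⟩

theorem eu_natAbs {g : ℕ} (hg : 1 ≤ g) (φ : SurfaceGroup g ≃* SurfaceGroup g)
    (ρ : SurfaceGroup g →* SL2) : |eu (ρ.comp φ.toMonoidHom)| = |eu ρ| := by
  obtain ⟨k, hk, -⟩ := degree hg φ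
  rw [hk, abs_mul, Int.isUnit_iff_abs_eq.1 k.isUnit, one_mul]

/-- the degree of an automorphism -/
noncomputable def deg {g : ℕ} (hg : 1 ≤ g) (φ : SurfaceGroup g ≃* SurfaceGroup g) : ℤˣ :=
  (degree hg φ).choose

theorem eu_comp {g : ℕ} (hg : 1 ≤ g) (φ : SurfaceGroup g ≃* SurfaceGroup g)
    (ρ : SurfaceGroup g →* SL2) : eu (ρ.comp φ.toMonoidHom) = deg hg φ * eu ρ :=
  (degree hg φ).choose_spec.1 ρ

theorem cup_comp {g : ℕ} (hg : 1 ≤ g) (φ : SurfaceGroup g ≃* SurfaceGroup g) (R : Type) [CommRing R]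
    (u v : SurfaceGroup g →* Multiplicative R) :
    cup (u.comp φ.toMonoidHom) (v.comp φ.toMonoidHom) = ((deg hg φ : ℤ) : R) * cup u v :=
  (degree hg φ).choose_spec.2 R u v

theorem deg_mul {g : ℕ} (hg : 1 ≤ g) (φ ψ : SurfaceGroup g ≃* SurfaceGroup g) :
    deg hg (φ.trans ψ) = deg hg φ * deg hg ψ := by
  obtain ⟨u, v, huv⟩ := exists_coord hg
  have h1 := cup_comp hg (φ.trans ψ) ℤ u v
  have h2 := cup_comp hg φ ℤ (u.comp ψ.toMonoidHom) (v.comp ψ.toMonoidHom)
  rw [cup_comp hg ψ ℤ u v, huv] at h2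
  have e : ∀ w : SurfaceGroup g →* Multiplicative ℤ,
      (w.comp ψ.toMonoidHom).comp φ.toMonoidHom = w.comp (φ.trans ψ).toMonoidHom := by
    intro w
    ext x
    simp
  rw [e, e, h1, huv] at h2
  apply Units.ext
  push_cast
  simpa using h2

/-- the degree is determined modulo `3` (any `n ≥ 3`) by the cup product -/
theorem deg_eq_one {g : ℕ} (hg : 1 ≤ g) (φ : SurfaceGroup g ≃* SurfaceGroup g)
    (h : ∀ u v : SurfaceGroup g →* Multiplicative (ZMod 3),
      cup (u.comp φ.toMonoidHom) (v.comp φ.toMonoidHom) = cup u v) : deg hg φ = 1 := by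
  obtain ⟨u, v, huv⟩ := exists_coord hg
  set r : Multiplicative ℤ →* Multiplicative (ZMod 3) :=
    AddMonoidHom.toMultiplicative (Int.castAddHom (ZMod 3)) with hr
  have hc : cup (r.comp u) (r.comp v) = 1 := by
    have : ((cup u v : ℤ) : ZMod 3) = cup (r.comp u) (r.comp v) := by
      rw [cup, cup, Int.cast_sum]
      apply Finset.sum_congr rfl
      intro i _
      push_cast
      rfl
    rw [← this, huv, Int.cast_one]
  have h1 := cup_comp hg φ (ZMod 3) (r.comp u) (r.comp v)
  rw [h, hc, mul_one] at h1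
  rcases Int.units_eq_one_or (deg hg φ) with h2 | h2
  · exact h2
  · exfalso
    rw [h2] at h1
    revert h1
    decide

end Pool.Agent.ToEu
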