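import Pool.Agent.Lib.MP_305fdd_al.To.Eu.Lift

/-!
# MP_305fdd_al, torsion room, Euler number: Milnor-Wood inequalities for homeomorphisms
-/

set_option autoImplicit false

namespace Pool.Agent.ToEu

/-- a unit of `CircleDeg1Lift` is strictly increasing -/
theorem u_strictMono (f : CircleDeg1Liftˣ) : StrictMono (f : CircleDeg1Lift) :=
  (CircleDeg1Lift.toOrderIso f).strictMono

theorem u_continuous (f : CircleDeg1Liftˣ) : Continuous (f : CircleDeg1Lift) :=
  (CircleDeg1Lift.toOrderIso f).continuous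

theorem u_mul_apply (f g : CircleDeg1Liftˣ) (x : ℝ) :
    ((f * g : CircleDeg1Liftˣ) : CircleDeg1Lift) x = (f : CircleDeg1Lift) ((g : CircleDeg1Lift) x) :=
  rfl

theorem u_one_apply (x : ℝ) : ((1 : CircleDeg1Liftˣ) : CircleDeg1Lift) x = x := rfl

/-- the displacements of a homeomorphism vary by less than one -/
theorem disp_lt (f : CircleDeg1Liftˣ) (x y : ℝ) :
    (f : CircleDeg1Lift) y - y < (f : CircleDeg1Lift) x - x + 1 := by
  -- replace `y` by `y - n` in `[x, x + 1)`
  set n : ℤ := ⌊y - x⌋ with hn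
  have h1 : x ≤ y - n := by have := Int.floor_le (y - x); linarith
  have h2 : y - n < x + 1 := by have := Int.lt_floor_add_one (y - x); linarith
  have h3 : (f : CircleDeg1Lift) (y - n) = (f : CircleDeg1Lift) y - n :=
    CircleDeg1Lift.map_sub_int _ _ _
  have h4 := u_strictMono f h2
  rw [CircleDeg1Lift.map_add_one, h3] at h4
  linarith

/-- **Wood's lemma**: the commutator of two homeomorphisms moves some point by less than one -/
theorem comm_lt (f g : CircleDeg1Liftˣ) :
    ∃ x, ((f * g * f⁻¹ * g⁻¹ : CircleDeg1Liftˣ) : CircleDeg1Lift) x < x + 1 := by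
  by_contra h
  push Not at h
  have h1 : ∀ y, (g : CircleDeg1Lift) y + 1
      ≤ ((f * g * f⁻¹ : CircleDeg1Liftˣ) : CircleDeg1Lift) y := by
    intro y
    have := h ((g : CircleDeg1Lift) y)
    rw [u_mul_apply, CircleDeg1Lift.units_inv_apply_apply] at this
    exact this
  have h2 : (zt 1 * g : CircleDeg1Liftˣ).val ≤ (f * g * f⁻¹ : CircleDeg1Liftˣ).val := by
    intro y
    rw [u_mul_apply, zt_apply, Int.cast_one, add_comm]
    exact h1 y
  have h3 := CircleDeg1Lift.translationNumber_mono h2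
  have h4 : CircleDeg1Lift.translationNumber (f * g * f⁻¹ : CircleDeg1Liftˣ).val
      = CircleDeg1Lift.translationNumber (g : CircleDeg1Lift) := by
    have := CircleDeg1Lift.translationNumber_conj_eq f (g : CircleDeg1Lift)
    exact this
  have h5 : CircleDeg1Lift.translationNumber (zt 1 * g : CircleDeg1Liftˣ).val
      = 1 + CircleDeg1Lift.translationNumber (g : CircleDeg1Lift) := by
    have hc : Commute (zt 1 : CircleDeg1Liftˣ).val (g : CircleDeg1Lift) := by
      have := zt_comm 1 g
      exact congrArg Units.val this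
    rw [Units.val_mul, CircleDeg1Lift.translationNumber_mul_of_commute hc]
    congr 1
    have := CircleDeg1Lift.translationNumber_translate (((1 : ℤ) : ℝ))
    rw [Int.cast_one] at this
    rw [zt, Int.cast_one]
    exact this
  rw [h4, h5] at h3
  linarith

theorem lt_comm (f g : CircleDeg1Liftˣ) :
    ∃ x, x - 1 < ((f * g * f⁻¹ * g⁻¹ : CircleDeg1Liftˣ) : CircleDeg1Lift) x := by
  obtain ⟨x, hx⟩ := comm_lt g f
  refine ⟨((g * f * g⁻¹ * f⁻¹ : CircleDeg1Liftˣ) : CircleDeg1Lift) x, ?_⟩
  have e : ((f * g * f⁻¹ * g⁻¹ : CircleDeg1Liftˣ) : CircleDeg1Lift)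
      (((g * f * g⁻¹ * f⁻¹ : CircleDeg1Liftˣ) : CircleDeg1Lift) x) = x := by
    rw [← u_mul_apply]
    rw [show f * g * f⁻¹ * g⁻¹ * (g * f * g⁻¹ * f⁻¹) = 1 by group]
    rfl
  rw [e]
  linarith

/-- a commutator moves every point by less than two -/
theorem comm_lt_two (f g : CircleDeg1Liftˣ) (x : ℝ) :
    ((f * g * f⁻¹ * g⁻¹ : CircleDeg1Liftˣ) : CircleDeg1Lift) x < x + 2 := by
  obtain ⟨y, hy⟩ := comm_lt f g
  have := disp_lt (f * g * f⁻¹ * g⁻¹) y x
  linarith

theorem neg_two_lt_comm (f g : CircleDeg1Liftˣ) (x : ℝ) :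
    x - 2 < ((f * g * f⁻¹ * g⁻¹ : CircleDeg1Liftˣ) : CircleDeg1Lift) x := by
  obtain ⟨y, hy⟩ := lt_comm f g
  have := disp_lt (f * g * f⁻¹ * g⁻¹) x y
  linarith

/-- the product of a nonempty list of commutators: some point is moved by less than `2 k - 1` -/
theorem prod_lt (L : List (CircleDeg1Liftˣ × CircleDeg1Liftˣ)) (hL : L ≠ []) :
    ∃ x, (((L.map fun p => p.1 * p.2 * p.1⁻¹ * p.2⁻¹).prod : CircleDeg1Liftˣ) : CircleDeg1Lift) x
      < x + (2 * L.length - 1) := by
  induction L with
  | nil => exact absurd rfl hL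
  | cons p L ih =>
    rcases eq_or_ne L [] with h | h
    · subst h
      obtain ⟨x, hx⟩ := comm_lt p.1 p.2
      refine ⟨x, ?_⟩
      rw [List.map_cons, List.map_nil, List.prod_cons, List.prod_nil, mul_one]
      simp only [List.length_cons, List.length_nil, Nat.cast_add, Nat.cast_one, Nat.cast_zero]
      linarith
    · obtain ⟨x, hx⟩ := ih h
      refine ⟨x, ?_⟩
      rw [List.map_cons, List.prod_cons, u_mul_apply]
      have := comm_lt_two p.1 p.2
        ((((L.map fun p => p.1 * p.2 * p.1⁻¹ * p.2⁻¹).prod : CircleDeg1Liftˣ) : CircleDeg1Lift) x)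
      simp only [List.length_cons, Nat.cast_add, Nat.cast_one]
      linarith

theorem lt_prod (L : List (CircleDeg1Liftˣ × CircleDeg1Liftˣ)) (hL : L ≠ []) :
    ∃ x, x - (2 * L.length - 1)
      < (((L.map fun p => p.1 * p.2 * p.1⁻¹ * p.2⁻¹).prod : CircleDeg1Liftˣ) : CircleDeg1Lift) x := by
  induction L with
  | nil => exact absurd rfl hL
  | cons p L ih =>
    rcases eq_or_ne L [] with h | h
    · subst h
      obtain ⟨x, hx⟩ := lt_comm p.1 p.2
      refine ⟨x, ?_⟩
      rw [List.map_cons, List.map_nil, List.prod_cons, List.prod_nil, mul_one]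
      simp only [List.length_cons, List.length_nil, Nat.cast_add, Nat.cast_one, Nat.cast_zero]
      linarith
    · obtain ⟨x, hx⟩ := ih h
      refine ⟨x, ?_⟩
      rw [List.map_cons, List.prod_cons, u_mul_apply]
      have := neg_two_lt_comm p.1 p.2
        ((((L.map fun p => p.1 * p.2 * p.1⁻¹ * p.2⁻¹).prod : CircleDeg1Liftˣ) : CircleDeg1Lift) x)
      simp only [List.length_cons, Nat.cast_add, Nat.cast_one]
      linarith

end Pool.Agent.ToEu
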