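import Pool.Agent.Lib.MP_305fdd_al.To.Eu.Euler
import Pool.Agent.Lib.MP_305fdd_al.To.Eu.Wood

/-!
# MP_305fdd_al, torsion room: the Euler number is locally constant

Lifts of convergent matrices can be chosen pointwise convergent; pointwise convergence of
homeomorphisms of the line is stable under products and inverses.
-/

set_option autoImplicit false

namespace Pool.Agent.ToEu

open Filter Topology Pool.Agent.Su

/-! ### pointwise convergence -/

/-- pointwise convergence of units of `CircleDeg1Lift` -/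
def PT {ι : Type*} (l : Filter ι) (F : ι → CircleDeg1Liftˣ) (f : CircleDeg1Liftˣ) : Prop :=
  ∀ x : ℝ, Tendsto (fun n => (F n : CircleDeg1Lift) x) l (𝓝 ((f : CircleDeg1Lift) x))

section

variable {ι : Type*} {l : Filter ι}

theorem PT.const (f : CircleDeg1Liftˣ) : PT l (fun _ => f) f := fun _ => tendsto_const_nhds

theorem PT.mul {F G : ι → CircleDeg1Liftˣ} {f g : CircleDeg1Liftˣ} (hF : PT l F f)
    (hG : PT l G g) : PT l (fun n => F n * G n) (f * g) := by
  intro x
  simp only [u_mul_apply]
  set y := (g : CircleDeg1Lift) x with hy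
  have hc : ContinuousAt (f : CircleDeg1Lift) y := (u_continuous f).continuousAt
  rw [tendsto_order]
  refine ⟨fun a ha => ?_, fun a ha => ?_⟩
  · -- a point `z < y` with `a < f z`
    have h1 : ∀ᶠ z in 𝓝[<] y, a < (f : CircleDeg1Lift) z :=
      (hc.eventually_const_lt ha).filter_mono nhdsWithin_le_nhds
    obtain ⟨z, hz, hzy⟩ := (h1.and self_mem_nhdsWithin).exists
    have h2 : ∀ᶠ n in l, z < (G n : CircleDeg1Lift) x := (hG x).eventually_const_lt hzy
    have h3 : ∀ᶠ n in l, a < (F n : CircleDeg1Lift) z := (hF z).eventually_const_lt hz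
    filter_upwards [h2, h3] with n h4 h5
    exact h5.trans_le ((F n : CircleDeg1Lift).monotone h4.le)
  · have h1 : ∀ᶠ z in 𝓝[>] y, (f : CircleDeg1Lift) z < a :=
      (hc.eventually_lt_const ha).filter_mono nhdsWithin_le_nhds
    obtain ⟨z, hz, hzy⟩ := (h1.and self_mem_nhdsWithin).exists
    have h2 : ∀ᶠ n in l, (G n : CircleDeg1Lift) x < z := (hG x).eventually_lt_const hzy
    have h3 : ∀ᶠ n in l, (F n : CircleDeg1Lift) z < a := (hF z).eventually_lt_const hz
    filter_upwards [h2, h3] with n h4 h5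
    exact ((F n : CircleDeg1Lift).monotone h4.le).trans_lt h5

theorem PT.inv {F : ι → CircleDeg1Liftˣ} {f : CircleDeg1Liftˣ} (hF : PT l F f) :
    PT l (fun n => (F n)⁻¹) f⁻¹ := by
  intro x
  rw [tendsto_order]
  refine ⟨fun a ha => ?_, fun a ha => ?_⟩
  · have h1 : (f : CircleDeg1Lift) a < x := by
      have := u_strictMono f ha
      rwa [CircleDeg1Lift.units_apply_inv_apply] at this
    filter_upwards [(hF a).eventually_lt_const h1] with n h2
    have := u_strictMono (F n)⁻¹ h2
    rwa [CircleDeg1Lift.units_inv_apply_apply] at this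
  · have h1 : x < (f : CircleDeg1Lift) a := by
      have := u_strictMono f ha
      rwa [CircleDeg1Lift.units_apply_inv_apply] at this
    filter_upwards [(hF a).eventually_const_lt h1] with n h2
    have := u_strictMono (F n)⁻¹ h2
    rwa [CircleDeg1Lift.units_inv_apply_apply] at this

theorem PT.prod_ofFn {g : ℕ} {f : ι → Fin g → CircleDeg1Liftˣ} {f0 : Fin g → CircleDeg1Liftˣ}
    (h : ∀ i, PT l (fun n => f n i) (f0 i)) :
    PT l (fun n => (List.ofFn (f n)).prod) (List.ofFn f0).prod := by
  induction g with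
  | zero => simpa using PT.const (1 : CircleDeg1Liftˣ)
  | succ g ih =>
    simp only [List.ofFn_succ, List.prod_cons]
    exact (h 0).mul (ih fun i => h i.succ)

theorem PT.cw {g : ℕ} {a b : ι → Fin g → CircleDeg1Liftˣ} {a0 b0 : Fin g → CircleDeg1Liftˣ}
    (ha : ∀ i, PT l (fun n => a n i) (a0 i)) (hb : ∀ i, PT l (fun n => b n i) (b0 i)) :
    PT l (fun n => ToEu.cw (a n) (b n)) (ToEu.cw a0 b0) :=
  PT.prod_ofFn fun i => (((ha i).mul (hb i)).mul (ha i).inv).mul (hb i).inv

/-! ### convergent lifts -/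

/-- convergence of the entries -/
def MT (l : Filter ι) (A : ι → SL2) (A0 : SL2) : Prop :=
  ∀ i j : Fin 2, Tendsto (fun n => (A n).1 i j) l (𝓝 (A0.1 i j))

theorem MT.mul_left {A : ι → SL2} {A0 : SL2} (h : MT l A A0) (B : SL2) :
    MT l (fun n => B * A n) (B * A0) := by
  intro i j
  simp only [Matrix.SpecialLinearGroup.coe_mul, Matrix.mul_apply, Fin.sum_univ_two]
  exact ((h 0 j).const_mul _).add ((h 1 j).const_mul _)

theorem zz_tendsto {H : ι → SL2} (h : MT l H 1) (x : ℝ) :
    Tendsto (fun n => zz (H n) x) l (𝓝 1) := by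
  have h1 : zz 1 x = 1 := by
    have hcs := Real.sin_sq_add_cos_sq (Real.pi * x)
    apply Complex.ext
    · simp only [zz, Matrix.SpecialLinearGroup.coe_one, Matrix.one_apply_eq, Complex.one_re]
      rw [Matrix.one_apply_ne (by decide), Matrix.one_apply_ne (by decide)]
      linear_combination hcs
    · simp only [zz, Matrix.SpecialLinearGroup.coe_one, Matrix.one_apply_eq, Complex.one_im]
      rw [Matrix.one_apply_ne (by decide), Matrix.one_apply_ne (by decide)]
      ring
  have h00 := h 0 0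
  have h01 := h 0 1
  have h10 := h 1 0
  have h11 := h 1 1
  rw [← h1]
  have e : ∀ z : ℂ, z = Complex.equivRealProdCLM.symm (z.re, z.im) := by
    intro z
    apply Complex.ext <;> simp [Complex.equivRealProdCLM_symm_apply]
  have h2 : Tendsto (fun n => ((zz (H n) x).re, (zz (H n) x).im)) l
      (𝓝 ((zz 1 x).re, (zz 1 x).im)) := by
    apply Tendsto.prodMk_nhds
    · simp only [zz]
      exact (((h00.mul_const _).add (h01.mul_const _)).mul_const _).add
        (((h10.mul_const _).add (h11.mul_const _)).mul_const _)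
    · simp only [zz]
      exact (((h10.mul_const _).add (h11.mul_const _)).mul_const _).sub
        (((h00.mul_const _).add (h01.mul_const _)).mul_const _)
  have h3 := (Complex.equivRealProdCLM.symm.continuous.tendsto _).comp h2
  rw [← e] at h3
  refine h3.congr fun n => ?_
  exact (e _).symm

/-- **convergent matrices have convergent lifts** -/
theorem exists_PT {A : ι → SL2} {A0 : SL2} (h : MT l A A0) {f0 : CircleDeg1Liftˣ}
    (hf : (A0, f0) ∈ Tld) : ∃ F : ι → CircleDeg1Liftˣ, (∀ n, (A n, F n) ∈ Tld) ∧ PT l F f0 := by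
  classical
  set H : ι → SL2 := fun n => A0⁻¹ * A n with hH
  have hH1 : MT l H 1 := by
    have := h.mul_left A0⁻¹
    rwa [inv_mul_cancel] at this
  have key : ∀ n, ∃ F : CircleDeg1Liftˣ, (A n, F) ∈ Tld ∧ (-2 < (H n).1.trace →
      ∀ x, (F : CircleDeg1Lift) x = (f0 : CircleDeg1Lift) (x + Complex.arg (zz (H n) x) / Real.pi)) := by
    intro n
    by_cases ht : -2 < (H n).1.trace
    · obtain ⟨k, hk, hkx⟩ := exists_canon ht
      refine ⟨f0 * k, ?_, fun _ x => by rw [u_mul_apply, hkx]⟩
      have := Tld.mul_mem hf hk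
      rwa [Prod.mk_mul_mk, hH, mul_inv_cancel_left] at this
    · obtain ⟨k, hk⟩ := exists_lift (A n)
      exact ⟨k, hk, fun h' => absurd h' ht⟩
  choose F hF hFx using key
  refine ⟨F, hF, fun x => ?_⟩
  have htr : ∀ᶠ n in l, -2 < (H n).1.trace := by
    have h1 : Tendsto (fun n => (H n).1.trace) l (𝓝 2) := by
      have := (hH1 0 0).add (hH1 1 1)
      simp only [Matrix.SpecialLinearGroup.coe_one, Matrix.one_apply_eq] at this
      rw [show (1 : ℝ) + 1 = 2 by norm_num] at this
      refine this.congr fun n => ?_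
      rw [Matrix.trace_fin_two]
    exact h1.eventually_const_lt (by norm_num)
  have harg : Tendsto (fun n => x + Complex.arg (zz (H n) x) / Real.pi) l (𝓝 x) := by
    have h1 : Tendsto (fun n => Complex.arg (zz (H n) x)) l (𝓝 (Complex.arg 1)) :=
      (Complex.continuousAt_arg Complex.one_mem_slitPlane).tendsto.comp (zz_tendsto hH1 x)
    rw [Complex.arg_one] at h1
    have h2 := (h1.div_const Real.pi).const_add x
    rwa [zero_div, add_zero] at h2
  have h3 : Tendsto (fun n => (f0 : CircleDeg1Lift) (x + Complex.arg (zz (H n) x) / Real.pi)) l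
      (𝓝 ((f0 : CircleDeg1Lift) x)) := ((u_continuous f0).tendsto x).comp harg
  refine h3.congr' ?_
  filter_upwards [htr] with n hn
  exact (hFx n hn x).symm

/-! ### the Euler number -/

/-- **the Euler number is locally constant** -/
theorem eu_eventually {g : ℕ} {R : ι → SurfaceGroup g →* SL2} {ρ : SurfaceGroup g →* SL2}
    (ha : ∀ i, MT l (fun n => R n (sa g i)) (ρ (sa g i)))
    (hb : ∀ i, MT l (fun n => R n (sb g i)) (ρ (sb g i))) : ∀ᶠ n in l, eu (R n) = eu ρ := by
  choose F hF using exists_lift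
  choose a ha1 ha2 using fun i => exists_PT (ha i) (hF (ρ (sa g i)))
  choose b hb1 hb2 using fun i => exists_PT (hb i) (hF (ρ (sb g i)))
  have h1 : PT l (fun n => cw (fun i => a i n) (fun i => b i n))
      (cw (fun i => F (ρ (sa g i))) (fun i => F (ρ (sb g i)))) :=
    PT.cw (a := fun n i => a i n) (b := fun n i => b i n) ha2 hb2
  have h2 : PT l (fun n => zt (eu (R n))) (zt (eu ρ)) := by
    rw [← eu_spec ρ (fun i => hF _) (fun i => hF _)]
    have : (fun n => zt (eu (R n))) = fun n => cw (fun i => a i n) (fun i => b i n) := by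
      funext n
      exact (eu_spec (R n) (fun i => ha1 i n) (fun i => hb1 i n)).symm
    rw [this]
    exact h1
  have h3 := h2 0
  simp only [zt_apply, add_zero] at h3
  have h4 : ∀ᶠ n in l, (eu ρ : ℝ) - 1 < (eu (R n) : ℝ) := h3.eventually_const_lt (by linarith)
  have h5 : ∀ᶠ n in l, (eu (R n) : ℝ) < (eu ρ : ℝ) + 1 := h3.eventually_lt_const (by linarith)
  filter_upwards [h4, h5] with n h6 h7
  have h8 : eu ρ - 1 < eu (R n) := by exact_mod_cast h6
  have h9 : eu (R n) < eu ρ + 1 := by exact_mod_cast h7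
  omega

end

/-- **the set of homomorphisms with a given Euler number is closed** -/
theorem eu_closed {g : ℕ} (ρ : SurfaceGroup g →* SL2) (n : ℤ)
    (h : ∀ ε : ℝ, 0 < ε → ∃ ρ' : SurfaceGroup g →* SL2, eu ρ' = n ∧
      (∀ k, ∀ i j : Fin 2, |(ρ' (sa g k)).1 i j - (ρ (sa g k)).1 i j| < ε) ∧
      (∀ k, ∀ i j : Fin 2, |(ρ' (sb g k)).1 i j - (ρ (sb g k)).1 i j| < ε)) : eu ρ = n := by
  choose R hR1 hR2 hR3 using fun m : ℕ => h (1 / ((m : ℝ) + 1)) Nat.one_div_pos_of_nat
  have hlim := tendsto_one_div_add_atTop_nhds_zero_nat (𝕜 := ℝ)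
  have key : ∀ x : SurfaceGroup g, (∀ m : ℕ, ∀ i j : Fin 2,
      |(R m x).1 i j - (ρ x).1 i j| < 1 / ((m : ℝ) + 1)) → MT atTop (fun m => R m x) (ρ x) := by
    intro x hx i j
    rw [tendsto_iff_dist_tendsto_zero]
    refine squeeze_zero (fun _ => dist_nonneg) (fun m => ?_) hlim
    rw [Real.dist_eq]
    exact (hx m i j).le
  have h1 := eu_eventually (l := atTop) (R := R) (ρ := ρ)
    (fun k => key _ fun m => hR2 m k) (fun k => key _ fun m => hR3 m k)
  obtain ⟨m, hm⟩ := h1.exists
  rw [← hm, hR1]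

/-- the form used by the fixed point theorem: approximation on all finite sets -/
theorem eu_closed' {g : ℕ} (n : ℤ) (ρ : SurfaceGroup g →* SL2)
    (h : ∀ (S : Finset (SurfaceGroup g)) (ε : ℝ), 0 < ε → ∃ ρ' : SurfaceGroup g →* SL2,
      eu ρ' = n ∧ ∀ x ∈ S, ∀ i j : Fin 2, |(ρ' x).1 i j - (ρ x).1 i j| < ε) : eu ρ = n := by
  classical
  refine eu_closed ρ n fun ε hε => ?_
  obtain ⟨ρ', h1, h2⟩ := h (Finset.univ.image (sa g) ∪ Finset.univ.image (sb g)) ε hε
  refine ⟨ρ', h1, fun k => h2 _ ?_, fun k => h2 _ ?_⟩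
  · exact Finset.mem_union_left _ (Finset.mem_image_of_mem _ (Finset.mem_univ k))
  · exact Finset.mem_union_right _ (Finset.mem_image_of_mem _ (Finset.mem_univ k))

end Pool.Agent.ToEu
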