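import Pool.Agent.Lib.MP_305fdd_al.To.Eu.Exist
import Pool.Agent.Lib.MP_305fdd_al.Su.Surf

/-!
# MP_305fdd_al, torsion room: the Euler number of a homomorphism `SurfaceGroup g →* SL(2, ℝ)`
-/

set_option autoImplicit false

namespace Pool.Agent.ToEu

open Pool.Agent.Su

/-! ### commutators and central elements -/

theorem comm_central {G : Type*} [Group G] {c d : G} (hc : ∀ x, Commute c x)
    (hd : ∀ x, Commute d x) (a b : G) :
    (c * a) * (d * b) * (c * a)⁻¹ * (d * b)⁻¹ = a * b * a⁻¹ * b⁻¹ := by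
  have h1 : (c * a) * (d * b) * (c * a)⁻¹ = c * (a * (d * b) * a⁻¹) * c⁻¹ := by group
  have h2 : c * (a * (d * b) * a⁻¹) * c⁻¹ = a * (d * b) * a⁻¹ := by
    rw [(hc _).eq, mul_inv_cancel_right]
  have h3 : a * (d * b) * a⁻¹ = d * (a * b * a⁻¹) := by
    rw [← mul_assoc a d b, ← (hd a).eq]; group
  have h4 : d * (a * b * a⁻¹) * (d * b)⁻¹ = d * (a * b * a⁻¹ * b⁻¹) * d⁻¹ := by group
  rw [h1, h2, h3, h4, (hd _).eq, mul_inv_cancel_right]

/-- the product of the commutators `[a_i, b_i]` -/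
def cw {g : ℕ} {Q : Type*} [Group Q] (a b : Fin g → Q) : Q :=
  (List.ofFn fun i : Fin g => a i * b i * (a i)⁻¹ * (b i)⁻¹).prod

theorem cw_def {g : ℕ} {Q : Type*} [Group Q] (a b : Fin g → Q) :
    cw a b = (List.ofFn fun i : Fin g => a i * b i * (a i)⁻¹ * (b i)⁻¹).prod := rfl

theorem map_cw {g : ℕ} {Q R : Type*} [Group Q] [Group R] (θ : Q →* R) (a b : Fin g → Q) :
    θ (cw a b) = cw (fun i => θ (a i)) (fun i => θ (b i)) := by
  rw [cw, cw, map_list_prod, List.map_ofFn]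
  congr 2
  funext i
  simp only [Function.comp_apply, map_mul, map_inv]

theorem surf_cw (g : ℕ) : cw (sa g) (sb g) = 1 := by
  have h := lift_surfRel (Sum.elim (sa g) (sb g))
  rw [← surfMk_eq] at h
  have h2 : surfMk g (surfRel g) = 1 := PresentedGroup.one_of_mem (Set.mem_singleton _)
  rw [h2] at h
  exact h.symm

/-! ### the Euler number -/

theorem exists_eu {g : ℕ} (ρ : SurfaceGroup g →* SL2) :
    ∃ n : ℤ, Even n ∧ ∀ a b : Fin g → CircleDeg1Liftˣ, (∀ i, (ρ (sa g i), a i) ∈ Tld) →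
      (∀ i, (ρ (sb g i), b i) ∈ Tld) → cw a b = zt n := by
  choose F hF using exists_lift
  have hmem : ((1 : SL2), cw (fun i => F (ρ (sa g i))) (fun i => F (ρ (sb g i)))) ∈ Tld := by
    have h1 : cw (fun i => ((⟨(ρ (sa g i), F (ρ (sa g i))), hF _⟩ : Tld)))
        (fun i => (⟨(ρ (sb g i), F (ρ (sb g i))), hF _⟩ : Tld)) ∈ (⊤ : Subgroup Tld) :=
      Subgroup.mem_top _
    set W := cw (fun i => ((⟨(ρ (sa g i), F (ρ (sa g i))), hF _⟩ : Tld)))
        (fun i => (⟨(ρ (sb g i), F (ρ (sb g i))), hF _⟩ : Tld)) with hW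
    have e1 : W.1.1 = 1 := by
      have := map_cw ((MonoidHom.fst SL2 CircleDeg1Liftˣ).comp Tld.subtype)
        (fun i => ((⟨(ρ (sa g i), F (ρ (sa g i))), hF _⟩ : Tld)))
        (fun i => (⟨(ρ (sb g i), F (ρ (sb g i))), hF _⟩ : Tld))
      have e2 : ((MonoidHom.fst SL2 CircleDeg1Liftˣ).comp Tld.subtype) W = W.1.1 := rfl
      rw [← e2, this]
      have e3 := map_cw ρ (sa g) (sb g)
      rw [surf_cw, map_one] at e3
      exact e3.symm
    have e4 : W.1.2 = cw (fun i => F (ρ (sa g i))) (fun i => F (ρ (sb g i))) := by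
      have := map_cw ((MonoidHom.snd SL2 CircleDeg1Liftˣ).comp Tld.subtype)
        (fun i => ((⟨(ρ (sa g i), F (ρ (sa g i))), hF _⟩ : Tld)))
        (fun i => (⟨(ρ (sb g i), F (ρ (sb g i))), hF _⟩ : Tld))
      exact this
    have := W.2
    rw [← e4, ← e1]
    exact this
  obtain ⟨k, hk⟩ := lift_unique (even_mem 0) hmem
  rw [mul_zero, zt_zero, mul_one] at hk
  refine ⟨2 * k, ⟨k, by ring⟩, fun a b ha hb => ?_⟩
  rw [← hk, cw, cw]
  congr 2
  funext i
  obtain ⟨m, hm⟩ := lift_unique (hF (ρ (sa g i))) (ha i)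
  obtain ⟨n, hn⟩ := lift_unique (hF (ρ (sb g i))) (hb i)
  rw [hm, hn]
  exact comm_central (zt_comm _) (zt_comm _) _ _

/-- **the Euler number** of a homomorphism of the surface group into `SL(2, ℝ)` (as a representation
into `PSL(2, ℝ)`): the product of the commutators of arbitrary lifts is the translation by it -/
noncomputable def eu {g : ℕ} (ρ : SurfaceGroup g →* SL2) : ℤ := (exists_eu ρ).choose

theorem eu_even {g : ℕ} (ρ : SurfaceGroup g →* SL2) : Even (eu ρ) := (exists_eu ρ).choose_spec.1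

theorem eu_spec {g : ℕ} (ρ : SurfaceGroup g →* SL2) {a b : Fin g → CircleDeg1Liftˣ}
    (ha : ∀ i, (ρ (sa g i), a i) ∈ Tld) (hb : ∀ i, (ρ (sb g i), b i) ∈ Tld) :
    cw a b = zt (eu ρ) :=
  (exists_eu ρ).choose_spec.2 a b ha hb

theorem eu_eq {g : ℕ} (ρ : SurfaceGroup g →* SL2) {a b : Fin g → CircleDeg1Liftˣ} {n : ℤ}
    (ha : ∀ i, (ρ (sa g i), a i) ∈ Tld) (hb : ∀ i, (ρ (sb g i), b i) ∈ Tld)
    (h : cw a b = zt n) : eu ρ = n :=
  zt_injective ((eu_spec ρ ha hb).symm.trans h)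

/-- the Euler number depends only on the values on the generators -/
theorem hom_ext' {g : ℕ} {Q : Type*} [Group Q] {ρ σ : SurfaceGroup g →* Q}
    (ha : ∀ i, ρ (sa g i) = σ (sa g i)) (hb : ∀ i, ρ (sb g i) = σ (sb g i)) : ρ = σ := by
  have : ρ.comp (surfMk g) = σ.comp (surfMk g) := by
    ext c
    rcases c with i | i
    · exact ha i
    · exact hb i
  ext x
  obtain ⟨y, rfl⟩ := surfMk_surjective g x
  exact DFunLike.congr_fun this y

/-- changing the signs of the values on the generators does not change the Euler number -/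
theorem eu_sign {g : ℕ} (ρ σ : SurfaceGroup g →* SL2)
    (ha : ∀ i, σ (sa g i) = ρ (sa g i) ∨ σ (sa g i) = -ρ (sa g i))
    (hb : ∀ i, σ (sb g i) = ρ (sb g i) ∨ σ (sb g i) = -ρ (sb g i)) : eu σ = eu ρ := by
  choose F hF using exists_lift
  have key : ∀ A B : SL2, (B = A ∨ B = -A) → ∃ n : ℤ, (B, zt n * F A) ∈ Tld := by
    rintro A B (rfl | rfl)
    · exact ⟨0, by rw [zt_zero, one_mul]; exact hF B⟩
    · exact ⟨1, neg_mem (hF A)⟩
  choose m hm using fun i => key _ _ (ha i)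
  choose n hn using fun i => key _ _ (hb i)
  refine eu_eq σ hm hn ?_
  rw [← eu_spec ρ (fun i => hF (ρ (sa g i))) (fun i => hF (ρ (sb g i)))]
  rw [cw, cw]
  congr 2
  funext i
  exact comm_central (zt_comm _) (zt_comm _) _ _

/-- the trivial homomorphism -/
theorem eu_one {g : ℕ} : eu (1 : SurfaceGroup g →* SL2) = 0 := by
  refine eu_eq _ (a := fun _ => 1) (b := fun _ => 1) (fun i => ?_) (fun i => ?_) ?_
  · exact Tld.one_mem
  · exact Tld.one_mem
  · rw [zt_zero, cw]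
    simp

/-! ### conjugation -/

theorem eu_conj {g : ℕ} (ρ : SurfaceGroup g →* SL2) (A : SL2) :
    eu ((MulAut.conj A).toMonoidHom.comp ρ) = eu ρ := by
  choose F hF using exists_lift
  have key : ∀ B : SL2, (A * B * A⁻¹, F A * F B * (F A)⁻¹) ∈ Tld := by
    intro B
    exact Tld.mul_mem (Tld.mul_mem (hF A) (hF B)) (Tld.inv_mem (hF A))
  refine eu_eq _ (a := fun i => F A * F (ρ (sa g i)) * (F A)⁻¹)
    (b := fun i => F A * F (ρ (sb g i)) * (F A)⁻¹) (fun i => key _) (fun i => key _) ?_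
  have h := map_cw (MulAut.conj (F A)).toMonoidHom (fun i => F (ρ (sa g i)))
    (fun i => F (ρ (sb g i)))
  have h2 : cw (fun i => F A * F (ρ (sa g i)) * (F A)⁻¹)
      (fun i => F A * F (ρ (sb g i)) * (F A)⁻¹)
      = (MulAut.conj (F A)) (cw (fun i => F (ρ (sa g i))) (fun i => F (ρ (sb g i)))) :=
    h.symm
  rw [h2, eu_spec ρ (fun i => hF _) (fun i => hF _), MulAut.conj_apply, ← (zt_comm _ _).eq,
    mul_inv_cancel_right]

/-- conjugation by the reflection `diag(1, -1)` -/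
noncomputable def rfl2 : SL2 →* SL2 where
  toFun A := ⟨!![A.1 0 0, -A.1 0 1; -A.1 1 0, A.1 1 1], by
    rw [Matrix.det_fin_two_of]; linear_combination det_eq A⟩
  map_one' := by
    apply Subtype.ext
    ext i j
    fin_cases i <;> fin_cases j <;> simp
  map_mul' A B := by
    apply Subtype.ext
    ext i j
    fin_cases i <;> fin_cases j <;>
      simp [Matrix.mul_apply, Fin.sum_univ_two] <;> ring

/-- conjugation of a homeomorphism by `x ↦ -x` -/
noncomputable def rfc (f : CircleDeg1Lift) : CircleDeg1Lift :=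
  ⟨⟨fun x => -f (-x), fun x y h => neg_le_neg (f.monotone (neg_le_neg h))⟩, by
    intro x
    have := f.map_sub_int (-x) 1
    rw [Int.cast_one] at this
    show -f (-(x + 1)) = -f (-x) + 1
    rw [neg_add, ← sub_eq_add_neg, this]
    ring⟩

theorem rfc_apply (f : CircleDeg1Lift) (x : ℝ) : rfc f x = -f (-x) := rfl

noncomputable def rfm : CircleDeg1Lift →* CircleDeg1Lift where
  toFun := rfc
  map_one' := by
    apply CircleDeg1Lift.ext
    intro x
    rw [rfc_apply, CircleDeg1Lift.coe_one, id, id, neg_neg]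
  map_mul' f g := by
    apply CircleDeg1Lift.ext
    intro x
    rw [rfc_apply, CircleDeg1Lift.mul_apply, CircleDeg1Lift.mul_apply, rfc_apply, rfc_apply, neg_neg]

theorem rf_mem {A : SL2} {f : CircleDeg1Liftˣ} (h : (A, f) ∈ Tld) :
    (rfl2 A, Units.map rfm f) ∈ Tld := by
  rw [mem_Tld] at h ⊢
  intro x
  obtain ⟨c, hc, h1, h2⟩ := h (-x)
  refine ⟨c, hc, ?_, ?_⟩
  · show A.1 0 0 * Real.cos (Real.pi * x) + -A.1 0 1 * Real.sin (Real.pi * x)
      = c * Real.cos (Real.pi * (-(f : CircleDeg1Lift) (-x)))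
    rw [mul_neg, Real.cos_neg, ← h1, mul_neg, Real.cos_neg, Real.sin_neg]
    ring
  · show -A.1 1 0 * Real.cos (Real.pi * x) + A.1 1 1 * Real.sin (Real.pi * x)
      = c * Real.sin (Real.pi * (-(f : CircleDeg1Lift) (-x)))
    rw [mul_neg, Real.sin_neg, mul_neg, ← h2, mul_neg, Real.cos_neg, Real.sin_neg]
    ring

theorem rfm_zt (n : ℤ) : Units.map rfm (zt n) = zt (-n) := by
  apply Units.ext
  apply CircleDeg1Lift.ext
  intro x
  show -(zt n : CircleDeg1Lift) (-x) = (zt (-n) : CircleDeg1Lift) x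
  rw [zt_apply, zt_apply]
  push_cast
  ring

theorem eu_rfl {g : ℕ} (ρ : SurfaceGroup g →* SL2) : eu (rfl2.comp ρ) = -eu ρ := by
  choose F hF using exists_lift
  refine eu_eq _ (a := fun i => Units.map rfm (F (ρ (sa g i))))
    (b := fun i => Units.map rfm (F (ρ (sb g i)))) (fun i => rf_mem (hF _))
    (fun i => rf_mem (hF _)) ?_
  rw [← map_cw (Units.map rfm), eu_spec ρ (fun i => hF _) (fun i => hF _), rfm_zt]

end Pool.Agent.ToEu
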