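import Pool.Agent.Lib.MP_305fdd_al.To.Eu.Lift

/-!
# MP_305fdd_al, torsion room, Euler number: existence of lifts

A matrix of trace `> -2` has a canonical lift, of displacement `< 1`.
-/

set_option autoImplicit false

namespace Pool.Agent.ToEu

open Real

/-- the quotient of `A u(x)` by `u(x)` as a complex number -/
noncomputable def zz (A : SL2) (x : ℝ) : ℂ :=
  ⟨(A.1 0 0 * cos (π * x) + A.1 0 1 * sin (π * x)) * cos (π * x)
    + (A.1 1 0 * cos (π * x) + A.1 1 1 * sin (π * x)) * sin (π * x),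
   (A.1 1 0 * cos (π * x) + A.1 1 1 * sin (π * x)) * cos (π * x)
    - (A.1 0 0 * cos (π * x) + A.1 0 1 * sin (π * x)) * sin (π * x)⟩

theorem cos_sin_add_one (x : ℝ) :
    cos (π * (x + 1)) = -cos (π * x) ∧ sin (π * (x + 1)) = -sin (π * x) := by
  rw [show π * (x + 1) = π * x + π by ring, cos_add_pi, sin_add_pi]
  exact ⟨rfl, rfl⟩

theorem zz_add_one (A : SL2) (x : ℝ) : zz A (x + 1) = zz A x := by
  obtain ⟨h1, h2⟩ := cos_sin_add_one x
  apply Complex.ext
  · simp only [zz, h1, h2]; ring
  · simp only [zz, h1, h2]; ring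

theorem zz_continuous (A : SL2) : Continuous (zz A) := by
  have h1 : Continuous fun x : ℝ => cos (π * x) := by fun_prop
  have h2 : Continuous fun x : ℝ => sin (π * x) := by fun_prop
  have h3 : Continuous fun x : ℝ => (A.1 0 0 * cos (π * x) + A.1 0 1 * sin (π * x)) * cos (π * x)
    + (A.1 1 0 * cos (π * x) + A.1 1 1 * sin (π * x)) * sin (π * x) := by fun_prop
  have h4 : Continuous fun x : ℝ => (A.1 1 0 * cos (π * x) + A.1 1 1 * sin (π * x)) * cos (π * x)
    - (A.1 0 0 * cos (π * x) + A.1 0 1 * sin (π * x)) * sin (π * x) := by fun_prop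
  exact Complex.equivRealProdCLM.symm.continuous.comp (h3.prodMk h4)

theorem zz_slit {A : SL2} (hA : -2 < A.1.trace) (x : ℝ) : zz A x ∈ Complex.slitPlane := by
  rw [Complex.mem_slitPlane_iff]
  by_contra h
  push Not at h
  obtain ⟨h1, h2⟩ := h
  simp only [zz] at h1 h2
  set C := cos (π * x) with hC
  set S := sin (π * x) with hS
  have hcs : S ^ 2 + C ^ 2 = 1 := sin_sq_add_cos_sq (π * x)
  set P := A.1 0 0 * C + A.1 0 1 * S with hP
  set Q := A.1 1 0 * C + A.1 1 1 * S with hQ
  -- `A u = r u` with `r = P C + Q S ≤ 0`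
  set r := P * C + Q * S with hr
  have e1 : P = r * C := by
    have : P * (S ^ 2 + C ^ 2) = r * C := by rw [hr]; linear_combination -S * h2
    rwa [hcs, mul_one] at this
  have e2 : Q = r * S := by
    have : Q * (S ^ 2 + C ^ 2) = r * S := by rw [hr]; linear_combination C * h2
    rwa [hcs, mul_one] at this
  have hdet := det_eq A
  rw [Matrix.trace_fin_two] at hA
  have f1 : (A.1 0 0 - r) * C + A.1 0 1 * S = 0 := by
    rw [hP] at e1; linear_combination e1
  have f2 : A.1 1 0 * C + (A.1 1 1 - r) * S = 0 := by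
    rw [hQ] at e2; linear_combination e2
  have g : (A.1 0 0 - r) * (A.1 1 1 - r) - A.1 0 1 * A.1 1 0 = 0 := by
    have g1 : ((A.1 0 0 - r) * (A.1 1 1 - r) - A.1 0 1 * A.1 1 0) * C = 0 := by
      linear_combination (A.1 1 1 - r) * f1 - A.1 0 1 * f2
    have g2 : ((A.1 0 0 - r) * (A.1 1 1 - r) - A.1 0 1 * A.1 1 0) * S = 0 := by
      linear_combination (A.1 0 0 - r) * f2 - A.1 1 0 * f1
    have : ((A.1 0 0 - r) * (A.1 1 1 - r) - A.1 0 1 * A.1 1 0) * (S ^ 2 + C ^ 2) = 0 := by
      linear_combination S * g2 + C * g1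
    rwa [hcs, mul_one] at this
  -- `1 - r tr + r² = 0`, `r ≤ 0`, `tr > -2`
  have g3 : 1 - r * (A.1 0 0 + A.1 1 1) + r ^ 2 = 0 := by linear_combination g - hdet
  set t := A.1 0 0 + A.1 1 1 with ht
  have h5 : 0 ≤ -r * (t + 2) := mul_nonneg (by linarith) (by linarith)
  have h6 : (1 + r) ^ 2 = 0 := le_antisymm (by nlinarith) (sq_nonneg _)
  have h7 : r = -1 := by
    have := pow_eq_zero_iff (n := 2) (by norm_num) |>.1 h6
    linarith
  rw [h7] at g3
  linarith

/-- the displacement of the canonical lift -/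
theorem arg_lt {A : SL2} (hA : -2 < A.1.trace) (x : ℝ) : |Complex.arg (zz A x) / π| < 1 := by
  have h := zz_slit hA x
  have h1 : Complex.arg (zz A x) < π :=
    lt_of_le_of_ne (Complex.arg_le_pi _) (Complex.slitPlane_arg_ne_pi h)
  have h2 : -π < Complex.arg (zz A x) := Complex.neg_pi_lt_arg _
  rw [abs_div, abs_of_pos pi_pos, div_lt_one pi_pos, abs_lt]
  exact ⟨h2, h1⟩

theorem isLift_canon {A : SL2} (hA : -2 < A.1.trace) :
    IsLift A (fun x => x + Complex.arg (zz A x) / π) := by
  intro x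
  have hs := zz_slit hA x
  have hn : zz A x ≠ 0 := Complex.slitPlane_ne_zero hs
  refine ⟨‖zz A x‖, norm_pos_iff.2 hn, ?_, ?_⟩
  · have e : π * (x + Complex.arg (zz A x) / π) = π * x + Complex.arg (zz A x) := by
      field_simp
    have h1 : ‖zz A x‖ * cos (Complex.arg (zz A x)) = (zz A x).re := Complex.norm_mul_cos_arg _
    have h2 : ‖zz A x‖ * sin (Complex.arg (zz A x)) = (zz A x).im := Complex.norm_mul_sin_arg _
    have hcs := sin_sq_add_cos_sq (π * x)
    simp only [zz] at h1 h2
    rw [e, cos_add]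
    rw [show ‖zz A x‖ * (cos (π * x) * cos (zz A x).arg - sin (π * x) * sin (zz A x).arg)
      = cos (π * x) * (‖zz A x‖ * cos (Complex.arg (zz A x)))
        - sin (π * x) * (‖zz A x‖ * sin (Complex.arg (zz A x))) by ring]
    simp only [zz]
    rw [h1, h2]
    linear_combination -(A.1 0 0 * cos (π * x) + A.1 0 1 * sin (π * x)) * hcs
  · have e : π * (x + Complex.arg (zz A x) / π) = π * x + Complex.arg (zz A x) := by
      field_simp
    have h1 : ‖zz A x‖ * cos (Complex.arg (zz A x)) = (zz A x).re := Complex.norm_mul_cos_arg _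
    have h2 : ‖zz A x‖ * sin (Complex.arg (zz A x)) = (zz A x).im := Complex.norm_mul_sin_arg _
    have hcs := sin_sq_add_cos_sq (π * x)
    simp only [zz] at h1 h2
    rw [e, sin_add]
    rw [show ‖zz A x‖ * (sin (π * x) * cos (zz A x).arg + cos (π * x) * sin (zz A x).arg)
      = sin (π * x) * (‖zz A x‖ * cos (Complex.arg (zz A x)))
        + cos (π * x) * (‖zz A x‖ * sin (Complex.arg (zz A x))) by ring]
    simp only [zz]
    rw [h1, h2]
    linear_combination -(A.1 1 0 * cos (π * x) + A.1 1 1 * sin (π * x)) * hcs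

/-- **the canonical lift** of a matrix of trace `> -2` -/
theorem exists_canon {A : SL2} (hA : -2 < A.1.trace) :
    ∃ f : CircleDeg1Liftˣ, (A, f) ∈ Tld ∧
      ∀ x, (f : CircleDeg1Lift) x = x + Complex.arg (zz A x) / π := by
  set φ : ℝ → ℝ := fun x => x + Complex.arg (zz A x) / π with hφ
  have hl : IsLift A φ := isLift_canon hA
  have hper : ∀ x, φ (x + 1) = φ x + 1 := by
    intro x
    simp only [hφ, zz_add_one]
    ring
  have hcont : Continuous φ := by
    have : Continuous fun x => Complex.arg (zz A x) := by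
      rw [continuous_iff_continuousAt]
      intro x
      exact (Complex.continuousAt_arg (zz_slit hA x)).comp (zz_continuous A).continuousAt
    exact continuous_id.add (this.div_const _)
  have hinj : Function.Injective φ := by
    intro x y hxy
    obtain ⟨m, hm⟩ := lift_inj_mod hl (x := x) (y := y) (k := 0) (by simpa using hxy)
    have hn : ∀ n : ℕ, ∀ t, φ (t + n) = φ t + n := by
      intro n
      induction n with
      | zero => intro t; simp
      | succ n ih => intro t; rw [Nat.cast_succ, ← add_assoc, hper, ih]; ring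
    have hz : ∀ n : ℤ, ∀ t, φ (t + n) = φ t + n := by
      intro n t
      rcases n with n | n
      · simpa using hn n t
      · have := hn (n + 1) (t + (Int.negSucc n : ℤ))
        rw [Int.cast_negSucc] at this ⊢
        rw [neg_add_cancel_right] at this
        linarith
    have h2 := hz (2 * m) y
    have e : y + ((2 * m : ℤ) : ℝ) = x := by rw [hm]; push_cast; ring
    rw [e, hxy] at h2
    have h3 : ((2 * m : ℤ) : ℝ) = 0 := by linarith
    rw [← e, h3, add_zero]
  have hmono : StrictMono φ := by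
    rcases hcont.strictMono_of_inj hinj with h | h
    · exact h
    · exfalso
      have := h (show (0 : ℝ) < 0 + 1 by norm_num)
      rw [hper] at this
      linarith
  let F : CircleDeg1Lift := ⟨⟨φ, hmono.monotone⟩, hper⟩
  have hF : IsUnit F := by
    rw [CircleDeg1Lift.isUnit_iff_bijective]
    refine ⟨hinj, ?_⟩
    exact (CircleDeg1Lift.continuous_iff_surjective F).1 hcont
  obtain ⟨f, hf⟩ := hF
  refine ⟨f, ?_, ?_⟩
  · rw [mem_Tld, hf]; exact hl
  · intro x; rw [hf]; rfl

theorem exists_near {A : SL2} (hA : -2 < A.1.trace) :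
    ∃ f : CircleDeg1Liftˣ, (A, f) ∈ Tld ∧ ∀ x, |(f : CircleDeg1Lift) x - x| < 1 := by
  obtain ⟨f, hf, h⟩ := exists_canon hA
  refine ⟨f, hf, fun x => ?_⟩
  rw [h x, add_sub_cancel_left]
  exact arg_lt hA x

/-- the translation by an odd integer lifts `-1` -/
theorem neg_one_mem : ((-1 : SL2), zt 1) ∈ Tld := by
  rw [mem_Tld]
  intro x
  refine ⟨1, one_pos, ?_, ?_⟩
  · rw [zt_apply, Int.cast_one, add_comm (1 : ℝ) x, (cos_sin_add_one x).1]
    simp
  · rw [zt_apply, Int.cast_one, add_comm (1 : ℝ) x, (cos_sin_add_one x).2]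
    simp

theorem neg_mem {A : SL2} {f : CircleDeg1Liftˣ} (h : (A, f) ∈ Tld) : (-A, zt 1 * f) ∈ Tld := by
  have := Tld.mul_mem neg_one_mem h
  rwa [Prod.mk_mul_mk, neg_one_mul] at this

theorem neg_mem_iff {A : SL2} {f : CircleDeg1Liftˣ} : (-A, zt 1 * f) ∈ Tld ↔ (A, f) ∈ Tld := by
  refine ⟨fun h => ?_, neg_mem⟩
  have h2 := Tld.mul_mem (Tld.inv_mem neg_one_mem) h
  have e : ((-1 : SL2), zt 1)⁻¹ * (-A, zt 1 * f) = (A, f) := by
    rw [Prod.inv_mk, Prod.mk_mul_mk, inv_mul_cancel_left]
    congr 1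
    rw [inv_mul_eq_iff_eq_mul, neg_one_mul]
  rwa [e] at h2

/-- an even translation lifts the identity -/
theorem even_mem (k : ℤ) : ((1 : SL2), zt (2 * k)) ∈ Tld := by
  have h : ((1 : SL2), zt 2) ∈ Tld := by
    have := neg_mem neg_one_mem
    rwa [neg_neg, ← zt_add] at this
  have h2 := Tld.zpow_mem h k
  have e : ((1 : SL2), zt 2) ^ k = (1, zt (2 * k)) := by
    refine Prod.ext ?_ ?_
    · rw [Prod.pow_fst, one_zpow]
    · rw [Prod.pow_snd, zt_zpow]
  rwa [e] at h2

/-- every matrix has a lift -/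
theorem exists_lift (A : SL2) : ∃ f : CircleDeg1Liftˣ, (A, f) ∈ Tld := by
  by_cases hA : -2 < A.1.trace
  · obtain ⟨f, hf, -⟩ := exists_canon hA
    exact ⟨f, hf⟩
  · have hB : -2 < (-A).1.trace := by
      have : (-A).1.trace = -A.1.trace := by
        rw [Matrix.SpecialLinearGroup.coe_neg, Matrix.trace_neg]
      rw [this]; push Not at hA; linarith
    obtain ⟨f, hf, -⟩ := exists_canon hB
    refine ⟨zt 1 * f, ?_⟩
    have := neg_mem hf
    rwa [neg_neg] at this

end Pool.Agent.ToEu
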