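import Mathlib.Dynamics.Circle.RotationNumber.TranslationNumber
import Mathlib.LinearAlgebra.Matrix.SpecialLinearGroup
import Mathlib.LinearAlgebra.Matrix.Trace
import Mathlib.Analysis.SpecialFunctions.Complex.Arg
import Mathlib.Analysis.SpecialFunctions.Trigonometric.Basic
import Mathlib.Topology.Order.IntermediateValue
import Mathlib.Tactic

/-!
# MP_305fdd_al, torsion room, Euler number: the universal cover of `SL(2, ℝ)`

The ray of angle `π x` is `(cos (π x), sin (π x))`; `SL(2, ℝ)` acts on the rays, and the lifts of this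
action to the line are units of `CircleDeg1Lift`.
-/

set_option autoImplicit false

namespace Pool.Agent.ToEu

open Real

/-- the special linear group of degree two over the reals -/
abbrev SL2 : Type := Matrix.SpecialLinearGroup (Fin 2) ℝ

/-- `f` describes the action of `A` on the rays: `A u(x)` is a positive multiple of `u(f x)`,
`u(x) = (cos (π x), sin (π x))`. -/
def IsLift (A : SL2) (f : ℝ → ℝ) : Prop :=
  ∀ x : ℝ, ∃ c : ℝ, 0 < c ∧
    A.1 0 0 * cos (π * x) + A.1 0 1 * sin (π * x) = c * cos (π * f x) ∧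
    A.1 1 0 * cos (π * x) + A.1 1 1 * sin (π * x) = c * sin (π * f x)

/-- equal rays have angles which differ by an even integer -/
theorem ray_eq {x y c : ℝ} (hc : 0 < c) (h1 : cos (π * x) = c * cos (π * y))
    (h2 : sin (π * x) = c * sin (π * y)) : ∃ m : ℤ, x = y + 2 * m := by
  have hx := sin_sq_add_cos_sq (π * x)
  have hy := sin_sq_add_cos_sq (π * y)
  have hc1 : c ^ 2 = 1 := by
    have h : c ^ 2 * (sin (π * y) ^ 2 + cos (π * y) ^ 2) = 1 := by
      rw [← hx, h1, h2]; ring
    rwa [hy, mul_one] at h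
  have hc2 : c = 1 := by nlinarith
  subst hc2
  have h3 : cos (π * x - π * y) = 1 := by
    rw [cos_sub, h1, h2]; nlinarith
  obtain ⟨n, hn⟩ := (cos_eq_one_iff _).1 h3
  refine ⟨n, ?_⟩
  have hpi : π ≠ 0 := pi_ne_zero
  have : π * (x - y - 2 * n) = 0 := by linarith
  rcases mul_eq_zero.1 this with h | h
  · exact absurd h hpi
  · linarith

theorem det_eq (A : SL2) : A.1 0 0 * A.1 1 1 - A.1 0 1 * A.1 1 0 = 1 := by
  have := A.2
  rwa [Matrix.det_fin_two] at this

/-- two lifts of the same matrix: the rays are equal -/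
theorem lift_ray {A : SL2} {f g : ℝ → ℝ} (hf : IsLift A f) (hg : IsLift A g) (x : ℝ) :
    ∃ m : ℤ, g x = f x + 2 * m := by
  obtain ⟨c, hc, h1, h2⟩ := hf x
  obtain ⟨d, hd, h3, h4⟩ := hg x
  refine ray_eq (c := c / d) (by positivity) ?_ ?_
  · have : d * cos (π * g x) = c * cos (π * f x) := by rw [← h1, ← h3]
    field_simp
    linarith
  · have : d * sin (π * g x) = c * sin (π * f x) := by rw [← h2, ← h4]
    field_simp
    linarith

/-- a lift is injective modulo even integers -/
theorem lift_inj_mod {A : SL2} {f : ℝ → ℝ} (hf : IsLift A f) {x y : ℝ} {k : ℤ}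
    (h : f x = f y + 2 * k) : ∃ m : ℤ, x = y + 2 * m := by
  obtain ⟨c, hc, h1, h2⟩ := hf x
  obtain ⟨d, hd, h3, h4⟩ := hf y
  have e1 : cos (π * f x) = cos (π * f y) := by
    rw [h, show π * (f y + 2 * k) = π * f y + k * (2 * π) by ring, cos_add_int_mul_two_pi]
  have e2 : sin (π * f x) = sin (π * f y) := by
    rw [h, show π * (f y + 2 * k) = π * f y + k * (2 * π) by ring, sin_add_int_mul_two_pi]
  rw [e1] at h1
  rw [e2] at h2
  have hdet := det_eq A
  have k1 : d * (A.1 0 0 * cos (π * x) + A.1 0 1 * sin (π * x))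
      = c * (A.1 0 0 * cos (π * y) + A.1 0 1 * sin (π * y)) := by rw [h1, h3]; ring
  have k2 : d * (A.1 1 0 * cos (π * x) + A.1 1 1 * sin (π * x))
      = c * (A.1 1 0 * cos (π * y) + A.1 1 1 * sin (π * y)) := by rw [h2, h4]; ring
  have l1 : d * cos (π * x) = c * cos (π * y) := by
    have e : (A.1 0 0 * A.1 1 1 - A.1 0 1 * A.1 1 0) * (d * cos (π * x))
        = (A.1 0 0 * A.1 1 1 - A.1 0 1 * A.1 1 0) * (c * cos (π * y)) := by
      linear_combination A.1 1 1 * k1 - A.1 0 1 * k2
    rwa [hdet, one_mul, one_mul] at e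
  have l2 : d * sin (π * x) = c * sin (π * y) := by
    have e : (A.1 0 0 * A.1 1 1 - A.1 0 1 * A.1 1 0) * (d * sin (π * x))
        = (A.1 0 0 * A.1 1 1 - A.1 0 1 * A.1 1 0) * (c * sin (π * y)) := by
      linear_combination A.1 0 0 * k2 - A.1 1 0 * k1
    rwa [hdet, one_mul, one_mul] at e
  refine ray_eq (c := c / d) (by positivity) ?_ ?_
  · field_simp
    linarith
  · field_simp
    linarith

/-! ### the group of all lifts -/

/-- the universal cover of `SL(2, ℝ)`: pairs of a matrix and a lift of its action on the rays -/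
def Tld : Subgroup (SL2 × CircleDeg1Liftˣ) where
  carrier := {p | IsLift p.1 (p.2 : CircleDeg1Lift)}
  one_mem' := by
    intro x
    refine ⟨1, one_pos, ?_, ?_⟩
    · simp
    · simp
  mul_mem' := by
    rintro ⟨A, f⟩ ⟨B, g⟩ hA hB x
    obtain ⟨c, hc, h1, h2⟩ := hB x
    obtain ⟨d, hd, h3, h4⟩ := hA ((g : CircleDeg1Lift) x)
    refine ⟨c * d, by positivity, ?_, ?_⟩
    · show (A * B).1 0 0 * cos (π * x) + (A * B).1 0 1 * sin (π * x)
        = c * d * cos (π * ((f : CircleDeg1Lift) ((g : CircleDeg1Lift) x)))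
      simp only [Matrix.SpecialLinearGroup.coe_mul, Matrix.mul_apply, Fin.sum_univ_two]
      simp only at h1 h2 h3 h4
      linear_combination A.1 0 0 * h1 + A.1 0 1 * h2 + c * h3
    · show (A * B).1 1 0 * cos (π * x) + (A * B).1 1 1 * sin (π * x)
        = c * d * sin (π * ((f : CircleDeg1Lift) ((g : CircleDeg1Lift) x)))
      simp only [Matrix.SpecialLinearGroup.coe_mul, Matrix.mul_apply, Fin.sum_univ_two]
      simp only at h1 h2 h3 h4
      linear_combination A.1 1 0 * h1 + A.1 1 1 * h2 + c * h4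
  inv_mem' := by
    rintro ⟨A, f⟩ hA x
    obtain ⟨c, hc, h1, h2⟩ := hA ((f⁻¹ : CircleDeg1Liftˣ) x)
    have hfx : (f : CircleDeg1Lift) ((f⁻¹ : CircleDeg1Liftˣ) x) = x :=
      CircleDeg1Lift.units_apply_inv_apply f x
    simp only at h1 h2
    rw [hfx] at h1 h2
    have hdet := det_eq A
    have hA0 : (A⁻¹).1 = !![A.1 1 1, -A.1 0 1; -A.1 1 0, A.1 0 0] := by
      rw [Matrix.SpecialLinearGroup.coe_inv, Matrix.adjugate_fin_two]
    refine ⟨c⁻¹, by positivity, ?_, ?_⟩
    · show (A⁻¹).1 0 0 * cos (π * x) + (A⁻¹).1 0 1 * sin (π * x)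
        = c⁻¹ * cos (π * ((f⁻¹ : CircleDeg1Liftˣ) x))
      rw [hA0]
      simp only [Matrix.of_apply, Matrix.cons_val', Matrix.cons_val_zero, Matrix.cons_val_one,
        Matrix.cons_val_fin_one]
      rw [eq_comm, inv_mul_eq_iff_eq_mul₀ hc.ne']
      linear_combination A.1 1 1 * h1 - A.1 0 1 * h2 - hdet * cos (π * ((f⁻¹ : CircleDeg1Liftˣ) x))
    · show (A⁻¹).1 1 0 * cos (π * x) + (A⁻¹).1 1 1 * sin (π * x)
        = c⁻¹ * sin (π * ((f⁻¹ : CircleDeg1Liftˣ) x))
      rw [hA0]
      simp only [Matrix.of_apply, Matrix.cons_val', Matrix.cons_val_zero, Matrix.cons_val_one,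
        Matrix.cons_val_fin_one]
      rw [eq_comm, inv_mul_eq_iff_eq_mul₀ hc.ne']
      linear_combination A.1 0 0 * h2 - A.1 1 0 * h1 - hdet * sin (π * ((f⁻¹ : CircleDeg1Liftˣ) x))

theorem mem_Tld {A : SL2} {f : CircleDeg1Liftˣ} :
    (A, f) ∈ Tld ↔ IsLift A (f : CircleDeg1Lift) := Iff.rfl

/-- translation by the integer `n` -/
noncomputable def zt (n : ℤ) : CircleDeg1Liftˣ := CircleDeg1Lift.translate (Multiplicative.ofAdd (n : ℝ))

theorem zt_apply (n : ℤ) (x : ℝ) : (zt n : CircleDeg1Lift) x = n + x :=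
  CircleDeg1Lift.translate_apply _ _

theorem zt_zero : zt 0 = 1 := by
  rw [zt, Int.cast_zero, ofAdd_zero, map_one]

theorem zt_add (m n : ℤ) : zt (m + n) = zt m * zt n := by
  rw [zt, zt, zt, Int.cast_add, ofAdd_add, map_mul]

theorem zt_neg (n : ℤ) : zt (-n) = (zt n)⁻¹ := by
  rw [eq_inv_iff_mul_eq_one, ← zt_add, neg_add_cancel, zt_zero]

theorem zt_zpow (n k : ℤ) : zt n ^ k = zt (n * k) := by
  have : ∀ m : ℕ, zt n ^ m = zt (n * m) := by
    intro m
    induction m with
    | zero => simp [zt_zero]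
    | succ m ih => rw [pow_succ, ih, ← zt_add]; congr 1; push_cast; ring
  rcases k with k | k
  · rw [Int.ofNat_eq_natCast, zpow_natCast, this]
  · rw [Int.negSucc_eq, zpow_neg, ← Nat.cast_succ, zpow_natCast, this, ← zt_neg]
    congr 1; push_cast; ring

theorem zt_injective : Function.Injective zt := by
  intro m n h
  have h2 := congrArg (fun f : CircleDeg1Liftˣ => (f : CircleDeg1Lift) 0) h
  simp only [zt_apply, add_zero] at h2
  exact_mod_cast h2

/-- integer translations are central -/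
theorem zt_comm (n : ℤ) (f : CircleDeg1Liftˣ) : Commute (zt n) f := by
  apply Units.ext
  apply CircleDeg1Lift.ext
  intro x
  rw [Units.val_mul, Units.val_mul, CircleDeg1Lift.mul_apply, CircleDeg1Lift.mul_apply, zt_apply,
    zt_apply, CircleDeg1Lift.map_int_add]

/-- a lift of the identity is an even translation -/
theorem lift_one {f : CircleDeg1Lift} (hf : IsLift 1 f) : ∃ k : ℤ, ∀ x, f x = x + 2 * k := by
  have h1 : IsLift 1 (fun x : ℝ => x) := by
    intro x
    exact ⟨1, one_pos, by simp, by simp⟩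
  have h : ∀ x, ∃ m : ℤ, f x = x + 2 * m := fun x => lift_ray h1 hf x
  choose k hk using h
  have key : ∀ x y : ℝ, x ≤ y → y < x + 1 → k x = k y := by
    intro x y hxy hy
    have e1 : f x ≤ f y := f.monotone hxy
    have e2 : f y ≤ f x + 1 := by
      rw [← f.map_add_one]; exact f.monotone hy.le
    rw [hk x, hk y] at e1 e2
    have c1 : (k x : ℝ) < k y + 1 := by linarith
    have c2 : (k y : ℝ) < k x + 1 := by linarith
    have c1' : k x < k y + 1 := by exact_mod_cast c1
    have c2' : k y < k x + 1 := by exact_mod_cast c2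
    omega
  refine ⟨k 0, fun x => ?_⟩
  have h0 : k (Int.fract x) = k 0 :=
    (key 0 (Int.fract x) (Int.fract_nonneg x) (by linarith [Int.fract_lt_one x])).symm
  have e : f x = f (Int.fract x) + ⌊x⌋ := by
    rw [← f.map_add_int, Int.fract_add_floor]
  rw [e, hk (Int.fract x), h0]
  have := Int.fract_add_floor x
  linarith

/-- two lifts of the same matrix differ by an even translation -/
theorem lift_unique {A : SL2} {f g : CircleDeg1Liftˣ} (hf : (A, f) ∈ Tld) (hg : (A, g) ∈ Tld) :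
    ∃ k : ℤ, g = zt (2 * k) * f := by
  have h : ((A, g) * (A, f)⁻¹ : SL2 × CircleDeg1Liftˣ) ∈ Tld := Tld.mul_mem hg (Tld.inv_mem hf)
  have h2 : ((A, g) * (A, f)⁻¹ : SL2 × CircleDeg1Liftˣ) = (1, g * f⁻¹) := by
    rw [Prod.inv_mk, Prod.mk_mul_mk, mul_inv_cancel]
  rw [h2, mem_Tld] at h
  obtain ⟨k, hk⟩ := lift_one h
  refine ⟨k, ?_⟩
  rw [← mul_inv_eq_iff_eq_mul]
  apply Units.ext
  apply CircleDeg1Lift.ext
  intro x
  rw [hk, zt_apply]
  push_cast
  ring

end Pool.Agent.ToEu
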