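import Pool.Agent.Lib.MP_305fdd_al.To.Eu.Euler
import Pool.Agent.Lib.MP_305fdd_al.To.Eu.Wood

/-!
# MP_305fdd_al, torsion room: maximal homomorphisms `SurfaceGroup g →* SL(2, ℝ)`
-/

set_option autoImplicit false

namespace Pool.Agent.ToEu

open Pool.Agent.Su Real

/-- the product of the commutators of a list of pairs -/
noncomputable def pc (L : List (CircleDeg1Liftˣ × CircleDeg1Liftˣ)) : CircleDeg1Liftˣ :=
  (L.map fun p => p.1 * p.2 * p.1⁻¹ * p.2⁻¹).prod

theorem pc_append (L M : List (CircleDeg1Liftˣ × CircleDeg1Liftˣ)) : pc (L ++ M) = pc L * pc M := by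
  rw [pc, pc, pc, List.map_append, List.prod_append]

theorem pc_cons (p : CircleDeg1Liftˣ × CircleDeg1Liftˣ) (M : List (CircleDeg1Liftˣ × CircleDeg1Liftˣ)) :
    pc (p :: M) = p.1 * p.2 * p.1⁻¹ * p.2⁻¹ * pc M := by
  rw [pc, pc, List.map_cons, List.prod_cons]

theorem pc_lt (L : List (CircleDeg1Liftˣ × CircleDeg1Liftˣ)) (hL : L ≠ []) :
    ∃ x, (pc L : CircleDeg1Lift) x < x + (2 * L.length - 1) := prod_lt L hL

theorem lt_pc (L : List (CircleDeg1Liftˣ × CircleDeg1Liftˣ)) (hL : L ≠ []) :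
    ∃ x, x - (2 * L.length - 1) < (pc L : CircleDeg1Lift) x := lt_prod L hL

theorem cw_eq_pc {g : ℕ} (a b : Fin g → CircleDeg1Liftˣ) :
    cw a b = pc (List.ofFn fun i => (a i, b i)) := by
  rw [cw, pc, List.map_ofFn]
  rfl

/-- **the Milnor-Wood inequality** -/
theorem milnor_wood {g : ℕ} (hg : 1 ≤ g) (ρ : SurfaceGroup g →* SL2) : |eu ρ| ≤ 2 * g - 2 := by
  choose F hF using exists_lift
  have h := eu_spec ρ (fun i => hF (ρ (sa g i))) (fun i => hF (ρ (sb g i)))
  rw [cw_eq_pc] at h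
  set L := List.ofFn fun i => (F (ρ (sa g i)), F (ρ (sb g i))) with hL
  have hlen : L.length = g := by rw [hL, List.length_ofFn]
  have hne : L ≠ [] := by
    intro h0
    rw [h0, List.length_nil] at hlen
    omega
  obtain ⟨x, hx⟩ := pc_lt L hne
  obtain ⟨y, hy⟩ := lt_pc L hne
  rw [h, zt_apply, hlen] at hx hy
  have h1 : (eu ρ : ℝ) < (2 * g - 1 : ℤ) := by push_cast; linarith
  have h2 : ((-(2 * g - 1) : ℤ) : ℝ) < eu ρ := by push_cast; linarith
  have h1' : eu ρ < 2 * g - 1 := by exact_mod_cast h1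
  have h2' : -(2 * g - 1) < eu ρ := by exact_mod_cast h2
  rw [abs_le]
  constructor
  · omega
  · omega

/-- in a maximal product every commutator moves some point by more than one -/
theorem pc_max {L1 L2 : List (CircleDeg1Liftˣ × CircleDeg1Liftˣ)} {p : CircleDeg1Liftˣ × CircleDeg1Liftˣ}
    (h0 : L1 ≠ [] ∨ L2 ≠ []) {n : ℤ} (hn : n = 2 * (L1.length + L2.length + 1) - 2)
    (h : pc (L1 ++ p :: L2) = zt n) :
    ∃ y, y + 1 < ((p.1 * p.2 * p.1⁻¹ * p.2⁻¹ : CircleDeg1Liftˣ) : CircleDeg1Lift) y := by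
  have hne : L2 ++ L1 ≠ [] := by
    rcases h0 with h0 | h0
    · exact List.append_ne_nil_of_right_ne_nil _ h0
    · exact List.append_ne_nil_of_left_ne_nil h0 _
  obtain ⟨x, hx⟩ := pc_lt (L2 ++ L1) hne
  rw [pc_append, pc_cons] at h
  have e : p.1 * p.2 * p.1⁻¹ * p.2⁻¹ = zt n * (pc (L2 ++ L1))⁻¹ := by
    rw [pc_append, eq_mul_inv_iff_mul_eq]
    have e1 : pc L1 * (p.1 * p.2 * p.1⁻¹ * p.2⁻¹ * pc L2) * pc L1 = zt n * pc L1 := by rw [h]
    rw [(zt_comm n (pc L1)).eq, mul_assoc (pc L1)] at e1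
    have e2 := mul_left_cancel e1
    rw [← e2]
    simp only [mul_assoc]
  refine ⟨(pc (L2 ++ L1) : CircleDeg1Lift) x, ?_⟩
  rw [e, u_mul_apply, CircleDeg1Lift.units_inv_apply_apply, zt_apply, hn]
  rw [List.length_append, Nat.cast_add] at hx
  push_cast
  linarith

theorem max_comm_lift {g : ℕ} (hg : 2 ≤ g) {ρ : SurfaceGroup g →* SL2} (h : eu ρ = 2 * g - 2)
    (i : Fin g) {a b : CircleDeg1Liftˣ} (ha : (ρ (sa g i), a) ∈ Tld) (hb : (ρ (sb g i), b) ∈ Tld) :
    ∃ y, y + 1 < ((a * b * a⁻¹ * b⁻¹ : CircleDeg1Liftˣ) : CircleDeg1Lift) y := by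
  choose F hF using exists_lift
  have h1 := eu_spec ρ (fun i => hF (ρ (sa g i))) (fun i => hF (ρ (sb g i)))
  rw [cw_eq_pc] at h1
  set f : Fin g → CircleDeg1Liftˣ × CircleDeg1Liftˣ := fun i => (F (ρ (sa g i)), F (ρ (sb g i)))
    with hf
  have hm : f i ∈ List.ofFn f := by rw [List.mem_ofFn]; exact ⟨i, rfl⟩
  obtain ⟨L1, L2, hL⟩ := List.append_of_mem hm
  have hlen : g = L1.length + L2.length + 1 := by
    have := congrArg List.length hL
    rw [List.length_ofFn, List.length_append, List.length_cons] at this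
    omega
  have h0 : L1 ≠ [] ∨ L2 ≠ [] := by
    by_contra hcon
    push Not at hcon
    rw [hcon.1, hcon.2] at hlen
    simp at hlen
    omega
  rw [hL] at h1
  have key := pc_max h0 (n := eu ρ) (by rw [h]; push_cast [hlen]; ring) h1
  obtain ⟨m, hm⟩ := lift_unique (hF (ρ (sa g i))) ha
  obtain ⟨n, hn⟩ := lift_unique (hF (ρ (sb g i))) hb
  rw [hm, hn, comm_central (zt_comm _) (zt_comm _)]
  exact key

/-! ### traces -/

theorem lift_sin {A : SL2} {f : ℝ → ℝ} (h : IsLift A f) (x : ℝ) : ∃ c : ℝ, 0 < c ∧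
    cos (π * x) * (A.1 1 0 * cos (π * x) + A.1 1 1 * sin (π * x))
      - sin (π * x) * (A.1 0 0 * cos (π * x) + A.1 0 1 * sin (π * x))
      = c * sin (π * (f x - x)) := by
  obtain ⟨c, hc, h1, h2⟩ := h x
  refine ⟨c, hc, ?_⟩
  rw [h1, h2, mul_sub, sin_sub]
  ring

theorem sin_pos_of {t : ℝ} (h0 : 0 < t) (h1 : t < 1) : 0 < sin (π * t) :=
  sin_pos_of_pos_of_lt_pi (by positivity) (by nlinarith [pi_pos])

theorem sin_neg_of {t : ℝ} (h0 : t < 0) (h1 : -1 < t) : sin (π * t) < 0 := by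
  have := sin_pos_of (t := -t) (by linarith) (by linarith)
  rw [mul_neg, sin_neg] at this
  linarith

/-- a lift which moves points in both directions belongs to a hyperbolic matrix -/
theorem trace_gt_two {C : SL2} {h : CircleDeg1Liftˣ} (hC : (C, h) ∈ Tld)
    (h1 : ∃ y, y < (h : CircleDeg1Lift) y) (h2 : ∃ x, (h : CircleDeg1Lift) x < x) :
    2 < C.1.trace := by
  obtain ⟨y, hy⟩ := h1
  obtain ⟨x, hx⟩ := h2
  have b1 := disp_lt h x y
  have hdet := det_eq C
  rw [mem_Tld] at hC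
  -- a fixed point
  obtain ⟨z, hz⟩ : ∃ z, (h : CircleDeg1Lift) z - z = 0 := by
    have hc : Continuous fun t => (h : CircleDeg1Lift) t - t := (u_continuous h).sub continuous_id
    exact mem_range_of_exists_le_of_exists_ge hc ⟨x, by linarith⟩ ⟨y, by linarith⟩
  have htr : 0 < C.1 0 0 + C.1 1 1 := by
    obtain ⟨c, hc, e1, e2⟩ := hC z
    have hz' : (h : CircleDeg1Lift) z = z := by linarith
    rw [hz'] at e1 e2
    have hcs := sin_sq_add_cos_sq (π * z)
    set P := cos (π * z)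
    set S := sin (π * z)
    have g1 : ((C.1 0 0 - c) * (C.1 1 1 - c) - C.1 0 1 * C.1 1 0) * P = 0 := by
      linear_combination (C.1 1 1 - c) * e1 - C.1 0 1 * e2
    have g2 : ((C.1 0 0 - c) * (C.1 1 1 - c) - C.1 0 1 * C.1 1 0) * S = 0 := by
      linear_combination (C.1 0 0 - c) * e2 - C.1 1 0 * e1
    have g3 : ((C.1 0 0 - c) * (C.1 1 1 - c) - C.1 0 1 * C.1 1 0) * (S ^ 2 + P ^ 2) = 0 := by
      linear_combination S * g2 + P * g1
    rw [hcs, mul_one] at g3
    have g4 : c * (C.1 0 0 + C.1 1 1) = 1 + c ^ 2 := by linear_combination hdet - g3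
    have g5 : 0 < c * (C.1 0 0 + C.1 1 1) := by rw [g4]; positivity
    exact (pos_iff_pos_of_mul_pos g5).1 hc
  -- the quadratic form takes both signs
  obtain ⟨c, hc, q1⟩ := lift_sin hC y
  obtain ⟨d, hd, q2⟩ := lift_sin hC x
  have s1 : 0 < sin (π * ((h : CircleDeg1Lift) y - y)) := sin_pos_of (by linarith) (by linarith)
  have s2 : sin (π * ((h : CircleDeg1Lift) x - x)) < 0 := sin_neg_of (by linarith) (by linarith)
  have p1 : 0 < c * sin (π * ((h : CircleDeg1Lift) y - y)) := mul_pos hc s1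
  have p2 : d * sin (π * ((h : CircleDeg1Lift) x - x)) < 0 := mul_neg_of_pos_of_neg hd s2
  rw [← q1] at p1
  rw [← q2] at p2
  clear q1 q2 s1 s2
  set P := cos (π * y)
  set S := sin (π * y)
  set P' := cos (π * x)
  set S' := sin (π * x)
  rw [Matrix.trace_fin_two]
  set α := C.1 0 0
  set β := C.1 0 1
  set γ := C.1 1 0
  set δ := C.1 1 1
  have hdisc : 0 < (δ - α) ^ 2 + 4 * β * γ := by
    by_contra hcon
    push Not at hcon
    -- `γ q = …`
    have k1 : 0 ≤ 4 * γ * (P * (γ * P + δ * S) - S * (α * P + β * S)) := by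
      have : 4 * γ * (P * (γ * P + δ * S) - S * (α * P + β * S))
          = (2 * γ * P + (δ - α) * S) ^ 2 - ((δ - α) ^ 2 + 4 * β * γ) * S ^ 2 := by ring
      rw [this]
      nlinarith [sq_nonneg (2 * γ * P + (δ - α) * S), sq_nonneg S]
    have k2 : 0 ≤ 4 * γ * (P' * (γ * P' + δ * S') - S' * (α * P' + β * S')) := by
      have : 4 * γ * (P' * (γ * P' + δ * S') - S' * (α * P' + β * S'))
          = (2 * γ * P' + (δ - α) * S') ^ 2 - ((δ - α) ^ 2 + 4 * β * γ) * S' ^ 2 := by ring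
      rw [this]
      nlinarith [sq_nonneg (2 * γ * P' + (δ - α) * S'), sq_nonneg S']
    have k3 : 0 ≤ γ := by
      by_contra hγ
      push Not at hγ
      nlinarith
    have k4 : γ ≤ 0 := by
      by_contra hγ
      push Not at hγ
      nlinarith
    have k5 : γ = 0 := le_antisymm k4 k3
    rw [k5] at hcon p1 p2
    have k6 : δ - α = 0 := by
      have : (δ - α) ^ 2 ≤ 0 := by linarith
      exact pow_eq_zero_iff (n := 2) (by norm_num) |>.1 (le_antisymm this (sq_nonneg _))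
    have k7 : δ = α := by linarith
    rw [k7] at p1 p2
    have k8 : 0 < -β * S ^ 2 := by nlinarith
    have k9 : -β * S' ^ 2 < 0 := by nlinarith
    have k10 : 0 < -β := by
      by_contra hb
      push Not at hb
      nlinarith [sq_nonneg S]
    nlinarith [sq_nonneg S']
  have hsq : 4 < (α + δ) ^ 2 := by nlinarith
  nlinarith

/-- the commutator of two matrices: `x² + y² + z² - x y z - 2` -/
theorem trace_comm (A B : SL2) : (A * B * A⁻¹ * B⁻¹).1.trace
    = A.1.trace ^ 2 + B.1.trace ^ 2 + (A * B).1.trace ^ 2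
      - A.1.trace * B.1.trace * (A * B).1.trace - 2 := by
  have hA := det_eq A
  have hB := det_eq B
  have eA : (A⁻¹).1 = !![A.1 1 1, -A.1 0 1; -A.1 1 0, A.1 0 0] := by
    rw [Matrix.SpecialLinearGroup.coe_inv, Matrix.adjugate_fin_two]
  have eB : (B⁻¹).1 = !![B.1 1 1, -B.1 0 1; -B.1 1 0, B.1 0 0] := by
    rw [Matrix.SpecialLinearGroup.coe_inv, Matrix.adjugate_fin_two]
  simp only [Matrix.SpecialLinearGroup.coe_mul, eA, eB, Matrix.trace_fin_two, Matrix.mul_apply,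
    Fin.sum_univ_two, Matrix.of_apply, Matrix.cons_val', Matrix.cons_val_zero, Matrix.cons_val_one,
    Matrix.cons_val_fin_one]
  set a := A.1 0 0
  set b := A.1 0 1
  set c := A.1 1 0
  set d := A.1 1 1
  set p := B.1 0 0
  set q := B.1 0 1
  set r := B.1 1 0
  set s := B.1 1 1
  linear_combination (a + d) ^ 2 * hB + (p + s) ^ 2 * hA - 2 * ((a * d - b * c) * hB + hA)

/-- Fricke: if the commutator has trace `< -2` then both matrices are hyperbolic -/
theorem hyp_of_comm {A B : SL2} (h : (A * B * A⁻¹ * B⁻¹).1.trace < -2) :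
    2 < |A.1.trace| ∧ 2 < |B.1.trace| := by
  rw [trace_comm] at h
  set x := A.1.trace
  set y := B.1.trace
  set z := (A * B).1.trace
  have key : ∀ x y z : ℝ, x ^ 2 + y ^ 2 + z ^ 2 - x * y * z - 2 < -2 → 2 < |x| := by
    intro x y z h
    by_contra hcon
    push Not at hcon
    have h1 : x * y * z ≤ |x| * (|y| * |z|) := by
      rw [← abs_mul, ← abs_mul, mul_assoc]; exact le_abs_self _
    have h2 : |x| * (|y| * |z|) ≤ 2 * (|y| * |z|) :=
      mul_le_mul_of_nonneg_right hcon (by positivity)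
    have h3 : 2 * (|y| * |z|) ≤ y ^ 2 + z ^ 2 := by
      rw [← sq_abs y, ← sq_abs z]; nlinarith [sq_nonneg (|y| - |z|)]
    nlinarith [sq_nonneg x]
  exact ⟨key x y z h, key y x z (by linarith)⟩

/-- the commutator of lifts moves a point by more than one: the commutator has trace `< -2` -/
theorem comm_trace {A B : SL2} {a b : CircleDeg1Liftˣ} (ha : (A, a) ∈ Tld) (hb : (B, b) ∈ Tld)
    (h : ∃ y, y + 1 < ((a * b * a⁻¹ * b⁻¹ : CircleDeg1Liftˣ) : CircleDeg1Lift) y) :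
    (A * B * A⁻¹ * B⁻¹).1.trace < -2 := by
  have hc : (A * B * A⁻¹ * B⁻¹, a * b * a⁻¹ * b⁻¹) ∈ Tld :=
    Tld.mul_mem (Tld.mul_mem (Tld.mul_mem ha hb) (Tld.inv_mem ha)) (Tld.inv_mem hb)
  have hn : (-(A * B * A⁻¹ * B⁻¹), zt (-1) * (a * b * a⁻¹ * b⁻¹)) ∈ Tld := by
    rw [← neg_mem_iff, neg_neg, ← mul_assoc, ← zt_add, show (1 : ℤ) + -1 = 0 by norm_num, zt_zero,
      one_mul]
    exact hc
  have key := trace_gt_two hn ?_ ?_
  · rw [Matrix.SpecialLinearGroup.coe_neg, Matrix.trace_neg] at key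
    linarith
  · obtain ⟨y, hy⟩ := h
    refine ⟨y, ?_⟩
    rw [u_mul_apply, zt_apply, Int.cast_neg, Int.cast_one]
    linarith
  · obtain ⟨x, hx⟩ := comm_lt a b
    refine ⟨x, ?_⟩
    rw [u_mul_apply, zt_apply, Int.cast_neg, Int.cast_one]
    linarith

/-- canonical lifts: the position of the point `w` -/
theorem ori_aux {A B : SL2} {a b : CircleDeg1Liftˣ} (ha : (A, a) ∈ Tld) (hb : (B, b) ∈ Tld)
    (da : ∀ x, |(a : CircleDeg1Lift) x - x| < 1) (db : ∀ x, |(b : CircleDeg1Lift) x - x| < 1)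
    (h : ∃ y, y + 1 < ((a * b * a⁻¹ * b⁻¹ : CircleDeg1Liftˣ) : CircleDeg1Lift) y) :
    0 < (A * B).1 1 0 - (B * A).1 1 0 := by
  obtain ⟨y, hy⟩ := h
  set w := ((a⁻¹ * b⁻¹ : CircleDeg1Liftˣ) : CircleDeg1Lift) y with hw
  have hp : (b : CircleDeg1Lift) ((a : CircleDeg1Lift) w) = y := by
    rw [hw, u_mul_apply, CircleDeg1Lift.units_apply_inv_apply, CircleDeg1Lift.units_apply_inv_apply]
  have hq : ((a * b * a⁻¹ * b⁻¹ : CircleDeg1Liftˣ) : CircleDeg1Lift) y
      = (a : CircleDeg1Lift) ((b : CircleDeg1Lift) w) := by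
    rw [hw, ← u_mul_apply, ← u_mul_apply, mul_assoc (a * b)]
  rw [hq] at hy
  set q := (a : CircleDeg1Lift) ((b : CircleDeg1Lift) w) with hqd
  have a1 := abs_lt.1 (da w)
  have a2 := abs_lt.1 (da ((b : CircleDeg1Lift) w))
  have b1 := abs_lt.1 (db w)
  have b2 := abs_lt.1 (db ((a : CircleDeg1Lift) w))
  rw [← hqd] at a2
  rw [hp] at b2
  have ma := u_strictMono a
  have mb := u_strictMono b
  -- `a w < w < b w`
  have c1 : (a : CircleDeg1Lift) w < w := by
    have : (b : CircleDeg1Lift) ((a : CircleDeg1Lift) w) < (b : CircleDeg1Lift) w := by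
      rw [hp]; linarith
    exact mb.lt_iff_lt.1 this
  have c3 : q < w + 1 := by
    have : q < (a : CircleDeg1Lift) (w + 1) := by
      rw [hqd]; exact ma (by linarith)
    rw [CircleDeg1Lift.map_add_one] at this
    linarith
  have c4 : w - 1 < y := by
    have : (b : CircleDeg1Lift) (w - 1) < y := by
      rw [← hp]; exact mb (by linarith)
    have e : (b : CircleDeg1Lift) (w - 1) = (b : CircleDeg1Lift) w - 1 := by
      have := CircleDeg1Lift.map_sub_int (b : CircleDeg1Lift) w 1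
      rwa [Int.cast_one] at this
    have c2 : w < (b : CircleDeg1Lift) w := by
      have : (a : CircleDeg1Lift) w < (a : CircleDeg1Lift) ((b : CircleDeg1Lift) w) := by
        rw [← hqd]; linarith
      exact ma.lt_iff_lt.1 this
    linarith
  have hAB : IsLift (A * B) ((a * b : CircleDeg1Liftˣ) : CircleDeg1Lift) := Tld.mul_mem ha hb
  have hBA : IsLift (B * A) ((b * a : CircleDeg1Liftˣ) : CircleDeg1Lift) := Tld.mul_mem hb ha
  obtain ⟨k, hk, e1⟩ := lift_sin hAB w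
  obtain ⟨l, hl, e2⟩ := lift_sin hBA w
  rw [u_mul_apply, ← hqd] at e1
  rw [u_mul_apply, hp] at e2
  have s1 : 0 < k * sin (π * (q - w)) := mul_pos hk (sin_pos_of (by linarith) (by linarith))
  have s2 : l * sin (π * (y - w)) < 0 :=
    mul_neg_of_pos_of_neg hl (sin_neg_of (by linarith) (by linarith))
  rw [← e1] at s1
  rw [← e2] at s2
  have hcom : (A * B * A⁻¹ * B⁻¹).1.trace < -2 := by
    refine comm_trace ha hb ⟨y, ?_⟩
    rw [hq]; exact hy
  rw [trace_comm] at hcom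
  have hdA := det_eq A
  have hdB := det_eq B
  simp only [Matrix.SpecialLinearGroup.coe_mul, Matrix.trace_fin_two, Matrix.mul_apply,
    Fin.sum_univ_two] at s1 s2 hcom ⊢
  set P := cos (π * w)
  set S := sin (π * w)
  set a0 := A.1 0 0
  set a1 := A.1 0 1
  set a2 := A.1 1 0
  set a3 := A.1 1 1
  set b0 := B.1 0 0
  set b1 := B.1 0 1
  set b2 := B.1 1 0
  set b3 := B.1 1 1
  -- `X = A B - B A`
  set x := a2 * b0 + a3 * b2 - (b2 * a0 + b3 * a2) with hx
  set y0 := a0 * b0 + a1 * b2 - (b0 * a0 + b1 * a2) with hy0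
  set z := a0 * b1 + a1 * b3 - (b0 * a1 + b1 * a3) with hz
  have hdet : 4 < -y0 ^ 2 - z * x := by
    have e : -y0 ^ 2 - z * x = 2 - ((a0 + a3) ^ 2 + (b0 + b3) ^ 2
        + (a0 * b0 + a1 * b2 + (a2 * b1 + a3 * b3)) ^ 2
        - (a0 + a3) * (b0 + b3) * (a0 * b0 + a1 * b2 + (a2 * b1 + a3 * b3)) - 2) := by
      rw [hx, hy0, hz]
      linear_combination (-(a0 + a3) ^ 2 + 4 * (a0 * a3 - a1 * a2)) * hdB
        + (-(b0 + b3) ^ 2 + 4) * hdA
    rw [e]
    linarith
  have hQ : 0 < x * P ^ 2 - 2 * y0 * P * S - z * S ^ 2 := by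
    have e : x * P ^ 2 - 2 * y0 * P * S - z * S ^ 2
        = (P * ((a2 * b0 + a3 * b2) * P + (a2 * b1 + a3 * b3) * S)
          - S * ((a0 * b0 + a1 * b2) * P + (a0 * b1 + a1 * b3) * S))
        - (P * ((b2 * a0 + b3 * a2) * P + (b2 * a1 + b3 * a3) * S)
          - S * ((b0 * a0 + b1 * a2) * P + (b0 * a1 + b1 * a3) * S)) := by
      rw [hx, hy0, hz]; ring
    rw [e]
    linarith
  by_contra hcon
  push Not at hcon
  have k1 : 0 ≤ x * (x * P ^ 2 - 2 * y0 * P * S - z * S ^ 2) := by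
    have e : x * (x * P ^ 2 - 2 * y0 * P * S - z * S ^ 2)
        = (x * P - y0 * S) ^ 2 + (-y0 ^ 2 - z * x) * S ^ 2 := by ring
    rw [e]
    have : 0 ≤ (-y0 ^ 2 - z * x) * S ^ 2 := mul_nonneg (by linarith) (sq_nonneg _)
    nlinarith [sq_nonneg (x * P - y0 * S)]
  rcases hcon.lt_or_eq with h0 | h0
  · nlinarith
  · rw [h0] at hdet
    nlinarith [sq_nonneg y0]

/-- orientation of a handle -/
theorem ori_of {A B : SL2} {a b : CircleDeg1Liftˣ} (ha : (A, a) ∈ Tld) (hb : (B, b) ∈ Tld)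
    (h : ∃ y, y + 1 < ((a * b * a⁻¹ * b⁻¹ : CircleDeg1Liftˣ) : CircleDeg1Lift) y) :
    0 < A.1.trace * B.1.trace * ((A * B).1 1 0 - (B * A).1 1 0) := by
  have hyp := hyp_of_comm (comm_trace ha hb h)
  -- reduction to positive traces
  have key : ∀ A B : SL2, ∀ a b : CircleDeg1Liftˣ, (A, a) ∈ Tld → (B, b) ∈ Tld →
      (∃ y, y + 1 < ((a * b * a⁻¹ * b⁻¹ : CircleDeg1Liftˣ) : CircleDeg1Lift) y) →
      0 < A.1.trace → 0 < B.1.trace → 0 < (A * B).1 1 0 - (B * A).1 1 0 := by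
    intro A B a b ha hb h hA hB
    obtain ⟨a', ha', da⟩ := exists_near (A := A) (by linarith)
    obtain ⟨b', hb', db⟩ := exists_near (A := B) (by linarith)
    obtain ⟨m, hm⟩ := lift_unique ha' ha
    obtain ⟨n, hn⟩ := lift_unique hb' hb
    rw [hm, hn, comm_central (zt_comm _) (zt_comm _)] at h
    exact ori_aux ha' hb' da db h
  have hA0 : A.1.trace ≠ 0 := by
    intro h0; rw [h0, abs_zero] at hyp; linarith [hyp.1]
  have hB0 : B.1.trace ≠ 0 := by
    intro h0; rw [h0, abs_zero] at hyp; linarith [hyp.2]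
  have tn : ∀ A : SL2, (-A).1.trace = -A.1.trace := by
    intro A; rw [Matrix.SpecialLinearGroup.coe_neg, Matrix.trace_neg]
  have en : ∀ (A : SL2) (i j : Fin 2), (-A).1 i j = -A.1 i j := by
    intro A i j; rw [Matrix.SpecialLinearGroup.coe_neg, Matrix.neg_apply]
  have cn : ∀ (c : CircleDeg1Liftˣ) (d : CircleDeg1Liftˣ),
      (zt 1 * c) * d * (zt 1 * c)⁻¹ * d⁻¹ = c * d * c⁻¹ * d⁻¹ := by
    intro c d
    have := comm_central (zt_comm 1) (zt_comm 0) c d
    rwa [zt_zero, one_mul] at this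
  have cn' : ∀ (c : CircleDeg1Liftˣ) (d : CircleDeg1Liftˣ),
      c * (zt 1 * d) * c⁻¹ * (zt 1 * d)⁻¹ = c * d * c⁻¹ * d⁻¹ := by
    intro c d
    have := comm_central (zt_comm 0) (zt_comm 1) c d
    rwa [zt_zero, one_mul] at this
  rcases lt_or_gt_of_ne hA0 with hA | hA <;> rcases lt_or_gt_of_ne hB0 with hB | hB
  · have := key (-A) (-B) (zt 1 * a) (zt 1 * b) (neg_mem ha) (neg_mem hb)
      (by rw [comm_central (zt_comm 1) (zt_comm 1)]; exact h) (by rw [tn]; linarith)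
      (by rw [tn]; linarith)
    rw [neg_mul_neg, neg_mul_neg] at this
    exact mul_pos (mul_pos_of_neg_of_neg hA hB) this
  · have := key (-A) B (zt 1 * a) b (neg_mem ha) hb
      (by rw [cn]; exact h) (by rw [tn]; linarith) hB
    rw [neg_mul, mul_neg, en, en] at this
    have h3 : (A * B).1 1 0 - (B * A).1 1 0 < 0 := by linarith
    exact mul_pos_of_neg_of_neg (mul_neg_of_neg_of_pos hA hB) h3
  · have := key A (-B) a (zt 1 * b) ha (neg_mem hb)
      (by rw [cn']; exact h) hA (by rw [tn]; linarith)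
    rw [mul_neg, neg_mul, en, en] at this
    have h3 : (A * B).1 1 0 - (B * A).1 1 0 < 0 := by linarith
    exact mul_pos_of_neg_of_neg (mul_neg_of_pos_of_neg hA hB) h3
  · exact mul_pos (mul_pos hA hB) (key A B a b ha hb h hA hB)

/-! ### maximal homomorphisms -/

theorem max_com {g : ℕ} (hg : 2 ≤ g) {ρ : SurfaceGroup g →* SL2} (h : eu ρ = 2 * g - 2)
    (i : Fin g) : (ρ (sa g i * sb g i * (sa g i)⁻¹ * (sb g i)⁻¹)).1.trace < -2 := by
  obtain ⟨a, ha⟩ := exists_lift (ρ (sa g i))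
  obtain ⟨b, hb⟩ := exists_lift (ρ (sb g i))
  have := comm_trace ha hb (max_comm_lift hg h i ha hb)
  simpa only [map_mul, map_inv] using this

theorem max_ori {g : ℕ} (hg : 2 ≤ g) {ρ : SurfaceGroup g →* SL2} (h : eu ρ = 2 * g - 2)
    (i : Fin g) : 0 < (ρ (sa g i)).1.trace * (ρ (sb g i)).1.trace
      * ((ρ (sa g i) * ρ (sb g i)).1 1 0 - (ρ (sb g i) * ρ (sa g i)).1 1 0) := by
  obtain ⟨a, ha⟩ := exists_lift (ρ (sa g i))
  obtain ⟨b, hb⟩ := exists_lift (ρ (sb g i))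
  exact ori_of ha hb (max_comm_lift hg h i ha hb)

theorem max_hyp {g : ℕ} (hg : 2 ≤ g) {ρ : SurfaceGroup g →* SL2} (h : eu ρ = 2 * g - 2)
    (i : Fin g) : 2 < |(ρ (sa g i)).1.trace| ∧ 2 < |(ρ (sb g i)).1.trace| := by
  have := max_com hg h i
  simp only [map_mul, map_inv] at this
  exact hyp_of_comm this

end Pool.Agent.ToEu
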